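import Pool.Agent.R229.MS.Spatial

/-! Assembly: every `*`-isomorphism is spatial. -/

set_option autoImplicit false

noncomputable section

namespace Pool.Agent.R229.MS

open MeasureTheory Filter Topology Set
open scoped InnerProductSpace ENNReal NNReal

universe u

section

variable {X : Type u} [MeasurableSpace X] {μ : Measure X}

lemma exists_good (ξ : L2 μ) (hξ : ξ ≠ 0) : ∃ (θ : ℂ) (B : Set X), MeasurableSet B ∧ μ B ≠ 0 ∧
    μ B ≠ ∞ ∧ ∀ x ∈ B, 0 < (θ * (ξ : X → ℂ) x).re := by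
  by_contra hcon
  push Not at hcon
  have hm : Measurable (ξ : X → ℂ) := (Lp.stronglyMeasurable ξ).measurable
  have key : ∀ θ : ℂ, ‖θ‖ = 1 → ∀ᵐ x ∂μ, (θ * (ξ : X → ℂ) x).re ≤ 0 := by
    intro θ hθ
    have h1 : ∀ n : ℕ, μ {x | 1 / ((n : ℝ) + 1) < (θ * (ξ : X → ℂ) x).re} = 0 := by
      intro n
      set B := {x | 1 / ((n : ℝ) + 1) < (θ * (ξ : X → ℂ) x).re} with hB
      have hBm : MeasurableSet B :=
        measurableSet_lt measurable_const (Complex.measurable_re.comp (measurable_const.mul hm))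
      have hBf : μ B ≠ ∞ := by
        have h2 := (Lp.memLp ξ).meas_ge_lt_top (by norm_num) (by norm_num)
          (ε := ⟨1 / ((n : ℝ) + 1), by positivity⟩) (by
            intro h0
            have : (1 : ℝ) / ((n : ℝ) + 1) = 0 := congrArg NNReal.toReal h0
            have h3 : (0 : ℝ) < 1 / ((n : ℝ) + 1) := by positivity
            linarith)
        refine ne_top_of_le_ne_top h2.ne (measure_mono ?_)
        intro x hx
        have hx1 : 1 / ((n : ℝ) + 1) < (θ * (ξ : X → ℂ) x).re := hx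
        have hx2 : (θ * (ξ : X → ℂ) x).re ≤ ‖(ξ : X → ℂ) x‖ := by
          refine (Complex.re_le_norm _).trans ?_
          rw [norm_mul, hθ, one_mul]
        have hx3 : 1 / ((n : ℝ) + 1) ≤ ‖(ξ : X → ℂ) x‖ := hx1.le.trans hx2
        exact hx3
      by_contra hne
      obtain ⟨x, hx, hle⟩ := hcon θ B hBm hne hBf
      have h3 : 1 / ((n : ℝ) + 1) < (θ * (ξ : X → ℂ) x).re := hx
      have h4 : (0 : ℝ) < 1 / ((n : ℝ) + 1) := by positivity
      linarith
    have h2 : ∀ᵐ x ∂μ, ∀ n : ℕ, ¬ (1 / ((n : ℝ) + 1) < (θ * (ξ : X → ℂ) x).re) := by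
      rw [ae_all_iff]
      intro n
      rw [ae_iff]
      simp only [not_not]
      exact h1 n
    filter_upwards [h2] with x hx
    by_contra hpos
    push Not at hpos
    obtain ⟨n, hn⟩ := exists_nat_one_div_lt hpos
    exact hx n hn
  apply hξ
  apply Lp.ext
  filter_upwards [key 1 (by simp), key (-1) (by simp), key Complex.I (by simp),
    key (-Complex.I) (by simp), Lp.coeFn_zero ℂ 2 μ] with x h1 h2 h3 h4 h5
  rw [h5]
  simp only [one_mul, neg_mul, Complex.neg_re, Complex.mul_re, Complex.I_re, Complex.I_im,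
    zero_mul] at h1 h2 h3 h4
  apply Complex.ext
  · show ((ξ : X → ℂ) x).re = 0
    linarith
  · show ((ξ : X → ℂ) x).im = 0
    linarith

lemma atom_mem {C : Set X} (hC : IsAtomSet μ C) (hm : MeasurableSet C) (hf : μ C ≠ ∞) :
    rk (indicatorConstLp 2 hm hf (1 : ℂ)) (indicatorConstLp 2 hm hf (1 : ℂ)) ∈ Bse μ := by
  have key : Expands 1 (rk (indicatorConstLp 2 hm hf (1 : ℂ))
      (indicatorConstLp 2 hm hf (1 : ℂ))) := by
    intro A hA
    rcases hC.2.2.2 (C ∩ A) (hm.inter hA) inter_subset_left with h0 | h0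
    · refine ⟨∅, MeasurableSet.empty, by simp, fun ξ hξ => ?_⟩
      have h1 : ⟪indicatorConstLp 2 hm hf (1 : ℂ), ξ⟫_ℂ = 0 := by
        rw [L2.inner_indicatorConstLp_one]
        apply integral_eq_zero_of_ae
        have h2 : ∀ᵐ x ∂μ, x ∉ C ∩ A := by
          rw [ae_iff]
          simpa using h0
        rw [Filter.EventuallyEq, ae_restrict_iff' hm]
        filter_upwards [hξ, h2] with x h3 h4 hxC
        exact h3 fun hxA => h4 ⟨hxC, hxA⟩
      rw [rk_apply, h1, zero_smul]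
      exact Supp.zero _
    · refine ⟨C, hm, ?_, fun ξ _ => ?_⟩
      · rw [ENNReal.coe_one, one_mul]
        have h1 : μ C ≤ μ (C ∩ A) + μ (C \ (C ∩ A)) := by
          have := measure_union_le (μ := μ) (C ∩ A) (C \ (C ∩ A))
          rwa [union_sdiff_cancel inter_subset_left] at this
        rw [h0, add_zero] at h1
        exact h1.trans (measure_mono inter_subset_right)
      · rw [rk_apply]
        apply Supp.smul
        filter_upwards [indicatorConstLp_coeFn (p := 2) (hs := hm) (hμs := hf)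
          (c := (1 : ℂ))] with x h1 hx
        rw [h1, indicator_of_notMem hx]
  refine ⟨1, key, ?_⟩
  rw [rk_adjoint]
  exact key

lemma nondeg (hM : StmtMaharam.{u}) (hP : StmtPiece.{u}) (ξ : L2 μ) (hξ : ξ ≠ 0) :
    ∃ v : L2 μ, ‖v‖ = 1 ∧ rk v v ∈ Cu μ ∧ ⟪v, ξ⟫_ℂ ≠ 0 := by
  obtain ⟨θ, B, hB, hB0, hBf, hpos⟩ := exists_good ξ hξ
  obtain ⟨C, hCB, hC⟩ := hM X μ B hB hB0 hBf
  have hCall : MeasurableSet C ∧ μ C ≠ 0 := by
    rcases hC with h | ⟨Ξ, A, h⟩
    · exact ⟨h.1, h.2.1⟩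
    · exact ⟨h.mC, h.pos⟩
  have hm := hCall.1
  have hf : μ C ≠ ∞ := ne_top_of_le_ne_top hBf (measure_mono hCB)
  have hmem : rk (indicatorConstLp 2 hm hf (1 : ℂ)) (indicatorConstLp 2 hm hf (1 : ℂ)) ∈ Cu μ := by
    rcases hC with h | ⟨Ξ, A, h⟩
    · exact (Bse μ).le_topologicalClosure (atom_mem h hm hf)
    · exact hP X μ C hm hf Ξ A h
  set w : L2 μ := indicatorConstLp 2 hm hf (1 : ℂ) with hw
  have hinner : ⟪w, ξ⟫_ℂ ≠ 0 := by
    intro h0
    rw [hw, L2.inner_indicatorConstLp_one] at h0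
    have hint : IntegrableOn (ξ : X → ℂ) C μ := by
      have : IsFiniteMeasure (μ.restrict C) := ⟨by simpa using lt_top_iff_ne_top.mpr hf⟩
      exact ((Lp.memLp ξ).restrict C).integrable (by norm_num)
    have h1 : ∫ x in C, (θ * (ξ : X → ℂ) x).re ∂μ = 0 := by
      have h2 : ∫ x in C, (θ * (ξ : X → ℂ) x) ∂μ = 0 := by
        rw [integral_const_mul, h0, mul_zero]
      have h3 := integral_re (hint.const_mul θ)
      simp only [RCLike.re_to_complex] at h3
      rw [h3, h2]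
      rfl
    have h4 : 0 < ∫ x in C, (θ * (ξ : X → ℂ) x).re ∂μ := by
      have hint2 : IntegrableOn (fun x => (θ * (ξ : X → ℂ) x).re) C μ :=
        (hint.const_mul θ).re
      rw [setIntegral_pos_iff_support_of_nonneg_ae _ hint2]
      · refine lt_of_lt_of_le (pos_iff_ne_zero.2 hCall.2) (measure_mono ?_)
        intro x hx
        exact ⟨(hpos x (hCB hx)).ne', hx⟩
      · rw [Filter.EventuallyLE, ae_restrict_iff' hm]
        exact Filter.Eventually.of_forall fun x hx => (hpos x (hCB hx)).le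
    linarith
  have hw0 : w ≠ 0 := by
    intro h0
    exact hinner (by rw [h0, inner_zero_left])
  have hnw : (‖w‖ : ℂ) ≠ 0 := by simpa using hw0
  refine ⟨((‖w‖ : ℂ)⁻¹) • w, ?_, ?_, ?_⟩
  · rw [norm_smul, norm_inv]
    simp only [Complex.norm_real, norm_norm]
    exact inv_mul_cancel₀ (norm_ne_zero_iff.2 hw0)
  · have h1 : rk (((‖w‖ : ℂ)⁻¹) • w) (((‖w‖ : ℂ)⁻¹) • w) =
        (((‖w‖ : ℂ)⁻¹) * ((‖w‖ : ℂ)⁻¹)) • rk w w := by
      ext1 z
      rw [_root_.smul_apply, rk_apply, rk_apply, inner_smul_left, smul_smul, smul_smul]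
      congr 1
      rw [map_inv₀, Complex.conj_ofReal]
      ring
    rw [h1]
    exact (Cu μ).smul_mem hmem _
  · rw [inner_smul_left]
    refine mul_ne_zero ?_ hinner
    rw [map_inv₀, Complex.conj_ofReal]
    exact inv_ne_zero hnw

end

theorem final (hM : StmtMaharam.{u}) (hP : StmtPiece.{u}) (X Y : Type u) [MeasurableSpace X]
    [MeasurableSpace Y] (μ : Measure X) (ν : Measure Y) (Φ : Cu μ ≃⋆ₐ[ℂ] Cu ν) :
    ∃ u : L2 μ ≃ₗᵢ[ℂ] L2 ν, ∀ (a : Cu μ) (η : L2 ν),
      (Φ a : L2 ν →L[ℂ] L2 ν) η = u ((a : L2 μ →L[ℂ] L2 μ) (u.symm η)) :=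
  spatial (L2 μ) (L2 ν) (Cu μ) (Cu ν) (nondeg hM hP) (nondeg hM hP) Φ

end Pool.Agent.R229.MS
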