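import Pool.Agent.R229.MS.Short
import Pool.Agent.R229.MS.Final

/-! From the short definitions to the working definitions. -/

set_option autoImplicit false

noncomputable section

namespace Pool.Agent.R229.MS

open MeasureTheory
open scoped ENNReal NNReal InnerProductSpace

universe u

theorem cuAlg_eq {X : Type u} [MeasurableSpace X] (μ : Measure X) :
    Short.CuAlg μ = ((Cu μ : StarSubalgebra ℂ (L2 μ →L[ℂ] L2 μ)) : Set (L2 μ →L[ℂ] L2 μ)) := by
  have h : {a : Short.Op μ | ∃ c : ℝ≥0, Short.Expands c a ∧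
      ∀ b : Short.Op μ, Short.IsAdj a b → Short.Expands c b} =
      ((Bse μ : StarSubalgebra ℂ (L2 μ →L[ℂ] L2 μ)) : Set (L2 μ →L[ℂ] L2 μ)) := by
    ext a
    refine exists_congr fun c => ?_
    constructor
    · rintro ⟨h1, h2⟩
      let a' : L2 μ →L[ℂ] L2 μ := a
      let b' : L2 μ →L[ℂ] L2 μ := ContinuousLinearMap.adjoint a'
      have h3 : ∀ ξ η : L2 μ, inner ℂ (b' ξ) η = inner ℂ ξ (a' η) := fun ξ η =>
        ContinuousLinearMap.adjoint_inner_left a' η ξ
      exact ⟨h1, h2 b' h3⟩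
    · rintro ⟨h1, h2⟩
      refine ⟨h1, fun b hb => ?_⟩
      have h3 : (show L2 μ →L[ℂ] L2 μ from b) = ContinuousLinearMap.adjoint
          (show L2 μ →L[ℂ] L2 μ from a) :=
        (ContinuousLinearMap.eq_adjoint_iff _ _).mpr hb
      have h4 : Expands c (show L2 μ →L[ℂ] L2 μ from b) := by
        rw [h3]
        exact h2
      exact h4
  unfold Short.CuAlg
  rw [h]
  rfl

theorem short_final (hM : StmtMaharam.{u}) (hP : StmtPiece.{u}) (X Y : Type u) [MeasurableSpace X]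
    [MeasurableSpace Y] (μ : Measure X) (ν : Measure Y) (Φ : Short.Op μ → Short.Op ν)
    (hΦ : Short.IsStarIso (Short.CuAlg μ) (Short.CuAlg ν) Φ) :
    ∃ u : Short.HS μ ≃ₗᵢ[ℂ] Short.HS ν, ∀ a ∈ Short.CuAlg μ, ∀ η : Short.HS ν,
      (Φ a) η = u (a (u.symm η)) := by
  have hmem : ∀ a : L2 μ →L[ℂ] L2 μ, a ∈ Cu μ → a ∈ Short.CuAlg μ := by
    intro a ha
    rw [cuAlg_eq]
    exact ha
  have hmem' : ∀ a : Short.Op μ, a ∈ Short.CuAlg μ → (show L2 μ →L[ℂ] L2 μ from a) ∈ Cu μ := by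
    intro a ha
    rw [cuAlg_eq] at ha
    exact ha
  have hmemν : ∀ a : L2 ν →L[ℂ] L2 ν, a ∈ Cu ν → a ∈ Short.CuAlg ν := by
    intro a ha
    rw [cuAlg_eq]
    exact ha
  have hmemν' : ∀ a : Short.Op ν, a ∈ Short.CuAlg ν → (show L2 ν →L[ℂ] L2 ν from a) ∈ Cu ν := by
    intro a ha
    rw [cuAlg_eq] at ha
    exact ha
  let F : Cu μ → Cu ν := fun a =>
    ⟨Φ a.1, hmemν' _ (hΦ.bij.mapsTo (hmem _ a.2))⟩
  have hF : Function.Bijective F := by
    constructor
    · intro a b hab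
      exact Subtype.ext (hΦ.bij.injOn (hmem _ a.2) (hmem _ b.2) (congrArg Subtype.val hab))
    · intro b
      obtain ⟨a, ha, hab⟩ := hΦ.bij.surjOn (hmemν _ b.2)
      exact ⟨⟨a, hmem' _ ha⟩, Subtype.ext hab⟩
  let Ψ : Cu μ ≃⋆ₐ[ℂ] Cu ν :=
    { Equiv.ofBijective F hF with
      map_mul' := fun a b => Subtype.ext (hΦ.mul _ (hmem _ a.2) _ (hmem _ b.2))
      map_add' := fun a b => Subtype.ext (hΦ.add _ (hmem _ a.2) _ (hmem _ b.2))
      map_smul' := fun z a => Subtype.ext (hΦ.smul z _ (hmem _ a.2))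
      map_star' := fun a => by
        apply Subtype.ext
        have h1 : Short.IsAdj (H := Short.HS μ) a.1 (star a).1 := fun ξ η =>
          ContinuousLinearMap.adjoint_inner_left (a.1 : L2 μ →L[ℂ] L2 μ) η ξ
        have h2 := hΦ.adj _ (hmem _ a.2) _ (hmem _ (star a).2) h1
        have h3 : (show L2 ν →L[ℂ] L2 ν from Φ (star a).1) = ContinuousLinearMap.adjoint
            (show L2 ν →L[ℂ] L2 ν from Φ a.1) :=
          (ContinuousLinearMap.eq_adjoint_iff _ _).mpr h2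
        exact h3 }
  obtain ⟨u, hu⟩ := final hM hP X Y μ ν Ψ
  exact ⟨u, fun a ha η => hu ⟨a, hmem' a ha⟩ η⟩

end Pool.Agent.R229.MS
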