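import Mathlib

/-! Operators with bounded support expansion on `L²(X, μ)`. -/

set_option autoImplicit false

noncomputable section

namespace Pool.Agent.R229.MS

open MeasureTheory Filter Topology Set
open scoped InnerProductSpace ENNReal NNReal

universe u

/-- The Hilbert space `L²(X, μ)` (complex scalars). -/
abbrev L2 {X : Type u} [MeasurableSpace X] (μ : Measure X) : Type u := Lp ℂ 2 μ

variable {X : Type u} [MeasurableSpace X] {μ : Measure X}

/-- `ξ` vanishes almost everywhere outside `A`, i.e. `1_A ξ = ξ`. -/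
def Supp (ξ : L2 μ) (A : Set X) : Prop := ∀ᵐ x ∂μ, x ∉ A → (ξ : X → ℂ) x = 0

/-- For every measurable `A` there is a measurable `B` with `μ B ≤ c μ A` and
`1_B a 1_A = a 1_A`. -/
def Expands (c : ℝ≥0) (a : L2 μ →L[ℂ] L2 μ) : Prop :=
  ∀ A : Set X, MeasurableSet A → ∃ B : Set X, MeasurableSet B ∧ μ B ≤ c * μ A ∧
    ∀ ξ : L2 μ, Supp ξ A → Supp (a ξ) B

/-- `a` and its adjoint have support expansion at most `c`. -/
def HasExp (c : ℝ≥0) (a : L2 μ →L[ℂ] L2 μ) : Prop :=
  Expands c a ∧ Expands c (ContinuousLinearMap.adjoint a)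

lemma Supp.mono {ξ : L2 μ} {A B : Set X} (h : Supp ξ A) (hAB : A ⊆ B) : Supp ξ B :=
  Filter.Eventually.mono h fun _ hx hxB => hx fun hxA => hxB (hAB hxA)

lemma Supp.zero (A : Set X) : Supp (0 : L2 μ) A := by
  filter_upwards [Lp.coeFn_zero ℂ 2 μ] with x hx _
  rw [hx]; rfl

lemma Supp.add {ξ η : L2 μ} {A : Set X} (h : Supp ξ A) (h' : Supp η A) : Supp (ξ + η) A := by
  filter_upwards [h, h', Lp.coeFn_add ξ η] with x h1 h2 h3 hx
  rw [h3, Pi.add_apply, h1 hx, h2 hx, add_zero]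

lemma Supp.smul {ξ : L2 μ} {A : Set X} (c : ℂ) (h : Supp ξ A) : Supp (c • ξ) A := by
  filter_upwards [h, Lp.coeFn_smul c ξ] with x h1 h3 hx
  rw [h3, Pi.smul_apply, h1 hx, smul_zero]

lemma Expands.mono {c d : ℝ≥0} {a : L2 μ →L[ℂ] L2 μ} (h : Expands c a) (hcd : c ≤ d) :
    Expands d a := by
  intro A hA
  obtain ⟨B, hB, hBA, h1⟩ := h A hA
  exact ⟨B, hB, hBA.trans (by gcongr), h1⟩

lemma Expands.add {c d : ℝ≥0} {a b : L2 μ →L[ℂ] L2 μ} (ha : Expands c a) (hb : Expands d b) :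
    Expands (c + d) (a + b) := by
  intro A hA
  obtain ⟨B, hB, hBA, h1⟩ := ha A hA
  obtain ⟨B', hB', hBA', h1'⟩ := hb A hA
  refine ⟨B ∪ B', hB.union hB', (measure_union_le B B').trans ?_, fun ξ hξ => ?_⟩
  · rw [ENNReal.coe_add, add_mul]
    exact add_le_add hBA hBA'
  · exact ((h1 ξ hξ).mono subset_union_left).add ((h1' ξ hξ).mono subset_union_right)

lemma Expands.smul {c : ℝ≥0} {a : L2 μ →L[ℂ] L2 μ} (z : ℂ) (ha : Expands c a) :
    Expands c (z • a) := by
  intro A hA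
  obtain ⟨B, hB, hBA, h1⟩ := ha A hA
  exact ⟨B, hB, hBA, fun ξ hξ => (h1 ξ hξ).smul z⟩

lemma Expands.mul {c d : ℝ≥0} {a b : L2 μ →L[ℂ] L2 μ} (ha : Expands c a) (hb : Expands d b) :
    Expands (c * d) (a * b) := by
  intro A hA
  obtain ⟨B, hB, hBA, h1⟩ := hb A hA
  obtain ⟨B', hB', hBA', h1'⟩ := ha B hB
  refine ⟨B', hB', ?_, fun ξ hξ => h1' _ (h1 ξ hξ)⟩
  calc μ B' ≤ c * μ B := hBA'
    _ ≤ c * (d * μ A) := by gcongr
    _ = _ := by rw [ENNReal.coe_mul, mul_assoc]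

lemma Expands.one : Expands 1 (1 : L2 μ →L[ℂ] L2 μ) := fun A hA =>
  ⟨A, hA, by rw [ENNReal.coe_one, one_mul], fun _ hξ => hξ⟩

lemma Expands.zero : Expands 0 (0 : L2 μ →L[ℂ] L2 μ) := fun _ _ =>
  ⟨∅, MeasurableSet.empty, by simp, fun _ _ => Supp.zero _⟩

/-- The `*`-algebra of the operators with bounded support expansion. -/
def Bse (μ : Measure X) : StarSubalgebra ℂ (L2 μ →L[ℂ] L2 μ) where
  carrier := {a | ∃ c : ℝ≥0, HasExp c a}
  mul_mem' := by
    rintro a b ⟨c, h1, h2⟩ ⟨d, h3, h4⟩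
    refine ⟨c * d, h1.mul h3, ?_⟩
    have e : ContinuousLinearMap.adjoint (a * b) =
        ContinuousLinearMap.adjoint b * ContinuousLinearMap.adjoint a :=
      ContinuousLinearMap.adjoint_comp a b
    rw [e, mul_comm c d]
    exact h4.mul h2
  add_mem' := by
    rintro a b ⟨c, h1, h2⟩ ⟨d, h3, h4⟩
    refine ⟨c + d, h1.add h3, ?_⟩
    rw [map_add]
    exact h2.add h4
  algebraMap_mem' := by
    intro r
    refine ⟨1, ?_, ?_⟩
    · rw [Algebra.algebraMap_eq_smul_one]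
      exact Expands.one.smul r
    · rw [Algebra.algebraMap_eq_smul_one, LinearIsometryEquiv.map_smulₛₗ]
      have e : ContinuousLinearMap.adjoint (1 : L2 μ →L[ℂ] L2 μ) = 1 := by
        symm
        rw [ContinuousLinearMap.eq_adjoint_iff]
        intro x y
        rfl
      rw [e]
      exact Expands.one.smul _
  star_mem' := by
    rintro a ⟨c, h1, h2⟩
    refine ⟨c, h2, ?_⟩
    rw [ContinuousLinearMap.star_eq_adjoint, ContinuousLinearMap.adjoint_adjoint]
    exact h1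

/-- `C*_u(X, V_μ)`: the norm closure of the algebra of the operators with bounded support
expansion. -/
def Cu (μ : Measure X) : StarSubalgebra ℂ (L2 μ →L[ℂ] L2 μ) := (Bse μ).topologicalClosure

/-- The rank one operator `ξ ↦ ⟨y, ξ⟩ x`. -/
def rk {H : Type u} [NormedAddCommGroup H] [InnerProductSpace ℂ H] (x y : H) : H →L[ℂ] H :=
  (innerSL ℂ y).smulRight x

/-- Sign function of a set. -/
def sg {X : Type u} (A : Set X) (x : X) : ℝ := by
  classical exact if x ∈ A then -1 else 1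

/-- The Walsh functions of a family of sets. -/
def walsh {X Ξ : Type u} (A : Ξ → Set X) (S : Finset Ξ) (x : X) : ℝ := ∏ i ∈ S, sg (A i) x

/-- `C` is an atom of `μ`. -/
def IsAtomSet (μ : Measure X) (C : Set X) : Prop :=
  MeasurableSet C ∧ μ C ≠ 0 ∧ μ C ≠ ∞ ∧
    ∀ D : Set X, MeasurableSet D → D ⊆ C → μ D = 0 ∨ μ (C \ D) = 0

/-- The measure algebra of `C` is generated by an infinite family of independent sets of relative
measure `1/2`. -/
structure Bern (μ : Measure X) (C : Set X) {Ξ : Type u} (A : Ξ → Set X) : Prop where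
  mC : MeasurableSet C
  pos : μ C ≠ 0
  fin : μ C ≠ ∞
  inf : Infinite Ξ
  meas : ∀ i, MeasurableSet (A i)
  orth : ∀ S : Finset Ξ, S.Nonempty → ∫ x in C, walsh A S x ∂μ = 0
  gen : ∀ D : Set X, MeasurableSet D →
    ∃ E : Set X, MeasurableSet[MeasurableSpace.generateFrom (Set.range A)] E ∧
      D =ᵐ[μ.restrict C] E

end Pool.Agent.R229.MS
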