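import Pool.Agent.R229.MS.Stm
import Mathlib.GroupTheory.FreeGroup.Orbit
import Mathlib.GroupTheory.FreeGroup.CyclicallyReduced

/-! # Piece MS-F: five permutations of an infinite set, with ping-pong on the finite subsets -/

set_option autoImplicit false

namespace Pool.Agent.R229.MS

open Cardinal
open scoped Pointwise

universe u

namespace Free

/-- the free group on five letters -/
abbrev F5 : Type := FreeGroup (Fin 5)

section

variable {Y : Type u} [DecidableEq Y] [MulAction F5 Y]

/-- a free action of a torsion free group is free on nonempty finite subsets -/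
theorem free_finset (hfree : ∀ (g : F5) (y : Y), g • y = y → g = 1) (g : F5) (S : Finset Y)
    (hS : S.Nonempty) (h : g • S = S) : g = 1 := by
  obtain ⟨x, hx⟩ := hS
  have hpow : ∀ n : ℕ, g ^ n • S = S := by
    intro n
    induction n with
    | zero => simp
    | succ n ih => rw [pow_succ, mul_smul, h, ih]
  have hmem : ∀ n : ℕ, g ^ n • x ∈ S := by
    intro n
    have := Finset.smul_mem_smul_finset (a := g ^ n) hx
    rwa [hpow n] at this
  have hninj : ¬ Function.Injective (fun n : ℕ => (⟨g ^ n • x, hmem n⟩ : S)) := by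
    intro hi
    exact not_injective_infinite_finite _ hi
  rw [Function.Injective] at hninj
  push Not at hninj
  obtain ⟨m, n, hmn, hne⟩ := hninj
  have h1 : g ^ m • x = g ^ n • x := congrArg Subtype.val hmn
  have h2 : (g ^ n)⁻¹ * g ^ m = 1 := by
    refine hfree _ x ?_
    rw [mul_smul, h1, inv_smul_smul]
  have h3 : g ^ m = g ^ n := by
    rw [inv_mul_eq_one] at h2
    exact h2.symm
  by_contra hg
  exact hne ((injective_pow_iff_not_isOfFinOrder.mpr (not_isOfFinOrder_of_isMulTorsionFree hg)) h3)

theorem exists_theta (hfree : ∀ (g : F5) (y : Y), g • y = y → g = 1) :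
    ∃ θ : Finset Y → F5, ∀ (g : F5) (S : Finset Y), S.Nonempty → θ (g • S) = g * θ S := by
  obtain ⟨rep, hrepdef⟩ : ∃ rep : Finset Y → Finset Y,
      rep = fun S => Quotient.out (Quotient.mk (MulAction.orbitRel F5 (Finset Y)) S) := ⟨_, rfl⟩
  have hrep : ∀ S, ∃ g : F5, g • rep S = S := by
    intro S
    have h1 : (MulAction.orbitRel F5 (Finset Y)).r
        (Quotient.out (Quotient.mk (MulAction.orbitRel F5 (Finset Y)) S)) S :=
      Quotient.mk_out (s := MulAction.orbitRel F5 (Finset Y)) S
    obtain ⟨g, hg⟩ := h1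
    refine ⟨g⁻¹, ?_⟩
    rw [hrepdef]
    simp only at hg ⊢
    rw [← hg, inv_smul_smul]
  choose θ hθ using hrep
  refine ⟨θ, fun g S hS => ?_⟩
  have hr : rep (g • S) = rep S := by
    rw [hrepdef]
    simp only
    congr 1
    exact Quotient.sound ⟨g, rfl⟩
  have h1 : θ (g • S) • rep S = g • S := by
    have := hθ (g • S)
    rwa [hr] at this
  have h2 : (g * θ S) • rep S = g • S := by
    rw [mul_smul, hθ]
  have hne : (rep S).Nonempty := by
    rw [Finset.nonempty_iff_ne_empty]
    intro h0
    have := hθ S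
    rw [h0, Finset.smul_finset_empty] at this
    rw [← this] at hS
    exact Finset.not_nonempty_empty hS
  have h3 : (g * θ S)⁻¹ * θ (g • S) = 1 := by
    refine free_finset hfree _ (rep S) hne ?_
    rw [mul_smul, h1, ← h2, inv_smul_smul]
  rw [inv_mul_eq_one] at h3
  exact h3.symm

theorem of_free_action (hfree : ∀ (g : F5) (y : Y), g • y = y → g = 1) :
    ∃ (π : Fin 5 → (Y ≃ Y)) (D E : Fin 5 → Set (Finset Y)),
    (∀ i j, i ≠ j → Disjoint (D i) (D j)) ∧ (∀ i j, i ≠ j → Disjoint (E i) (E j)) ∧
    (∀ i (S : Finset Y), S.Nonempty → S ∉ E i → S.map (π i).toEmbedding ∈ D i) := by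
  obtain ⟨θ, hθ⟩ := exists_theta hfree
  refine ⟨fun i => MulAction.toPerm (FreeGroup.of i),
    fun i => θ ⁻¹' (FreeGroup.startsWith (i, true)),
    fun i => θ ⁻¹' (FreeGroup.startsWith (i, false)), ?_, ?_, ?_⟩
  · intro i j hij
    refine Disjoint.preimage _ ?_
    rw [FreeGroup.startsWith.disjoint_iff_ne]
    simpa using hij
  · intro i j hij
    refine Disjoint.preimage _ ?_
    rw [FreeGroup.startsWith.disjoint_iff_ne]
    simpa using hij
  · intro i S hS hE
    have h1 : S.map (MulAction.toPerm (FreeGroup.of i)).toEmbedding = (FreeGroup.of i : F5) • S := by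
      ext y
      rw [Finset.mem_map, Finset.mem_smul_finset]
      constructor
      · rintro ⟨x, hx, hxy⟩
        exact ⟨x, hx, hxy⟩
      · rintro ⟨x, hx, hxy⟩
        exact ⟨x, hx, hxy⟩
    have h2 : θ (S.map (MulAction.toPerm (FreeGroup.of i)).toEmbedding)
        ∈ FreeGroup.startsWith (i, true) := by
      rw [h1, hθ _ _ hS]
      exact FreeGroup.startsWith_mk_mul (w := (i, true)) (θ S) hE
    exact h2

end

theorem equiv_prod (Ξ : Type u) [Infinite Ξ] : Nonempty (Ξ ≃ Ξ × F5) := by
  have hc : Countable F5 := FreeGroup.toWord_injective.countable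
  rw [← Cardinal.eq, Cardinal.mk_prod]
  rw [Cardinal.mul_eq_left]
  · simp
  · simp
  · refine le_trans ?_ (Cardinal.aleph0_le_mk Ξ |>.trans (by simp))
    rw [← Cardinal.lift_aleph0.{u, 0}, Cardinal.lift_le]
    exact Cardinal.mk_le_aleph0
  · simp [Cardinal.aleph0_ne_zero]

end Free

open Free in
theorem t_StmtFree : StmtFree.{u} := by
  intro Ξ hΞ
  classical
  obtain ⟨e⟩ := equiv_prod Ξ
  let act : MulAction F5 Ξ :=
    { smul := fun g x => e.symm ((e x).1, g * (e x).2)
      one_smul := by
        intro x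
        show e.symm ((e x).1, 1 * (e x).2) = x
        rw [one_mul]
        simp
      mul_smul := by
        intro g h x
        show e.symm ((e x).1, g * h * (e x).2)
          = e.symm ((e (e.symm ((e x).1, h * (e x).2))).1, g * (e (e.symm ((e x).1, h * (e x).2))).2)
        simp [mul_assoc] }
  refine of_free_action ?_
  intro g x h
  have h1 : e.symm ((e x).1, g * (e x).2) = x := h
  have h2 : ((e x).1, g * (e x).2) = e x := by
    rw [← Equiv.symm_apply_eq]
    exact h1
  have h3 : g * (e x).2 = (e x).2 := congrArg Prod.snd h2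
  exact mul_eq_right.mp h3

end Pool.Agent.R229.MS
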