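import Mathlib

/-! Spectral gap for five operators permuting an orthonormal family with disjoint sets. -/

set_option autoImplicit false

noncomputable section

namespace Pool.Agent.R229.MS

open Filter Topology Set
open scoped InnerProductSpace

section gap

variable {H : Type*} [NormedAddCommGroup H] [InnerProductSpace ℂ H] {ι : Type*} {u : ι → H}

lemma normsq (hu : Orthonormal ℂ u) (c : ι →₀ ℂ) :
    ‖Finsupp.linearCombination ℂ u c‖ ^ 2 = c.sum fun _ z => ‖z‖ ^ 2 := by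
  have h1 := hu.inner_finsupp_eq_sum_left c c
  rw [inner_self_eq_norm_sq_to_K] at h1
  have h2 : (c.sum fun i y => (starRingEnd ℂ) y * c i) = ((c.sum fun _ z => ‖z‖ ^ 2 : ℝ) : ℂ) := by
    simp only [Finsupp.sum]
    push_cast
    refine Finset.sum_congr rfl fun i _ => ?_
    rw [Complex.conj_mul']
  rw [h2] at h1
  have h3 : ((‖Finsupp.linearCombination ℂ u c‖ ^ 2 : ℝ) : ℂ) =
      ((c.sum fun _ z => ‖z‖ ^ 2 : ℝ) : ℂ) := by
    rw [← h1, Complex.ofReal_pow]
    rfl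
  exact Complex.ofReal_injective h3

lemma norm_sum_sq_of_orth {n : ℕ} (v : Fin n → H) (h : ∀ i j, i ≠ j → ⟪v i, v j⟫_ℂ = 0) :
    ‖∑ i, v i‖ ^ 2 = ∑ i, ‖v i‖ ^ 2 := by
  have h1 : ⟪∑ i, v i, ∑ i, v i⟫_ℂ = ∑ i, ⟪v i, v i⟫_ℂ := by
    rw [sum_inner]
    refine Finset.sum_congr rfl fun i _ => ?_
    rw [inner_sum]
    rw [Finset.sum_eq_single i]
    · intro j _ hj
      exact h i j (Ne.symm hj)
    · intro hi
      exact absurd (Finset.mem_univ i) hi
  simp only [inner_self_eq_norm_sq_to_K] at h1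
  exact_mod_cast h1

open Classical in
lemma gap_fin (hu : Orthonormal ℂ u) (p : Fin 5 → ι → ι) (hp : ∀ i, Function.Injective (p i))
    (D E : Fin 5 → Set ι) (hD : ∀ i j, i ≠ j → Disjoint (D i) (D j))
    (hE : ∀ i j, i ≠ j → Disjoint (E i) (E j)) (hDE : ∀ i x, x ∉ E i → p i x ∈ D i)
    (U : Fin 5 → H →L[ℂ] H) (hU : ∀ i x, U i (u x) = u (p i x)) (c : ι →₀ ℂ) :
    ‖∑ i, U i (Finsupp.linearCombination ℂ u c)‖ ≤
      2 * Real.sqrt 5 * ‖Finsupp.linearCombination ℂ u c‖ := by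
  set L := Finsupp.linearCombination ℂ u with hL
  -- the operators on finite sums
  have hUL : ∀ i (c : ι →₀ ℂ), U i (L c) = L (c.mapDomain (p i)) := by
    intro i c
    rw [hL, Finsupp.linearCombination_mapDomain, Finsupp.linearCombination_apply,
      Finsupp.linearCombination_apply, Finsupp.sum, Finsupp.sum, map_sum]
    refine Finset.sum_congr rfl fun x _ => ?_
    rw [map_smul, hU]
    rfl
  have hiso : ∀ i (c : ι →₀ ℂ), ‖U i (L c)‖ = ‖L c‖ := by
    intro i c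
    have h1 : ‖U i (L c)‖ ^ 2 = ‖L c‖ ^ 2 := by
      rw [hUL, hL, normsq hu, normsq hu, Finsupp.mapDomain]
      rw [← Finsupp.mapDomain, Finsupp.sum_mapDomain_index_inj (hp i)]
    exact (sq_eq_sq₀ (norm_nonneg _) (norm_nonneg _)).1 h1
  let c1 : Fin 5 → (ι →₀ ℂ) := fun i => c.filter (· ∈ E i)
  let c2 : Fin 5 → (ι →₀ ℂ) := fun i => c.filter (¬ · ∈ E i)
  have hsplit : ∀ i, L c = L (c1 i) + L (c2 i) := by
    intro i
    rw [← map_add, Finsupp.filter_add_filter_not]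
  have hfil : ∀ (P : ι → Prop) [DecidablePred P], ‖L (c.filter P)‖ ^ 2 = ∑ x ∈ c.support, if P x then ‖c x‖ ^ 2 else 0 := by
    intro P _
    rw [hL, normsq hu, Finsupp.sum, Finsupp.support_filter, ← Finset.sum_filter]
    refine Finset.sum_congr rfl fun x hx => ?_
    rw [Finsupp.filter_apply_pos _ _ (Finset.mem_filter.1 hx).2]
  have hnc : ‖L c‖ ^ 2 = ∑ x ∈ c.support, ‖c x‖ ^ 2 := by
    rw [hL, normsq hu, Finsupp.sum]
  have hle2 : ∀ i, ‖L (c2 i)‖ ^ 2 ≤ ‖L c‖ ^ 2 := by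
    intro i
    show ‖L (c.filter (¬ · ∈ E i))‖ ^ 2 ≤ ‖L c‖ ^ 2
    rw [hfil, hnc]
    refine Finset.sum_le_sum fun x _ => ?_
    have h0 : 0 ≤ ‖c x‖ ^ 2 := by positivity
    split_ifs
    · exact h0
    · exact le_rfl
  have hle1 : ∑ i, ‖L (c1 i)‖ ^ 2 ≤ ‖L c‖ ^ 2 := by
    simp only [c1, hfil]
    rw [Finset.sum_comm, hnc]
    refine Finset.sum_le_sum fun x _ => ?_
    by_cases hx : ∃ i, x ∈ E i
    · obtain ⟨i, hi⟩ := hx
      rw [Finset.sum_eq_single i]
      · rw [if_pos hi]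
      · intro j _ hj
        rw [if_neg]
        intro hxj
        exact Set.disjoint_left.1 (hE j i hj) hxj hi
      · intro h
        exact absurd (Finset.mem_univ i) h
    · push Not at hx
      rw [Finset.sum_eq_zero]
      · positivity
      · intro j _
        rw [if_neg (hx j)]
  have hsum : ∑ i, U i (L c) = ∑ i, U i (L (c1 i)) + ∑ i, U i (L (c2 i)) := by
    rw [← Finset.sum_add_distrib]
    refine Finset.sum_congr rfl fun i _ => ?_
    rw [← map_add, ← hsplit]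
  -- first part
  have hA : ‖∑ i, U i (L (c1 i))‖ ≤ Real.sqrt 5 * ‖L c‖ := by
    have h1 : ‖∑ i, U i (L (c1 i))‖ ≤ ∑ i, ‖L (c1 i)‖ := by
      refine (norm_sum_le _ _).trans (le_of_eq ?_)
      exact Finset.sum_congr rfl fun i _ => hiso i _
    have h2 : (∑ i, ‖L (c1 i)‖) ^ 2 ≤ 5 * ∑ i, ‖L (c1 i)‖ ^ 2 := by
      have := sq_sum_le_card_mul_sum_sq (s := (Finset.univ : Finset (Fin 5)))
        (f := fun i => ‖L (c1 i)‖)
      simpa using this
    have h3 : (∑ i, ‖L (c1 i)‖) ^ 2 ≤ (Real.sqrt 5 * ‖L c‖) ^ 2 := by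
      rw [mul_pow, Real.sq_sqrt (by norm_num)]
      linarith
    have h4 : 0 ≤ ∑ i, ‖L (c1 i)‖ := Finset.sum_nonneg fun i _ => norm_nonneg _
    exact h1.trans ((sq_le_sq₀ h4 (by positivity)).1 h3)
  have hB : ‖∑ i, U i (L (c2 i))‖ ≤ Real.sqrt 5 * ‖L c‖ := by
    have horth : ∀ i j, i ≠ j → ⟪U i (L (c2 i)), U j (L (c2 j))⟫_ℂ = 0 := by
      intro i j hij
      rw [hUL, hUL, hL, hu.inner_finsupp_eq_sum_left, Finsupp.sum]
      refine Finset.sum_eq_zero fun x hx => ?_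
      have hx1 : x ∈ D i := by
        have := Finsupp.mapDomain_support hx
        obtain ⟨y, hy, rfl⟩ := Finset.mem_image.1 this
        rw [Finsupp.support_filter] at hy
        exact hDE i y (Finset.mem_filter.1 hy).2
      have hx2 : (Finsupp.mapDomain (p j) (c2 j)) x = 0 := by
        by_contra hne
        have := Finsupp.mapDomain_support (Finsupp.mem_support_iff.2 hne)
        obtain ⟨y, hy, hyx⟩ := Finset.mem_image.1 this
        rw [Finsupp.support_filter] at hy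
        have h5 := hDE j y (Finset.mem_filter.1 hy).2
        rw [hyx] at h5
        exact Set.disjoint_left.1 (hD i j hij) hx1 h5
      rw [hx2, mul_zero]
    have h1 := norm_sum_sq_of_orth _ horth
    have h3 : ‖∑ i, U i (L (c2 i))‖ ^ 2 ≤ (Real.sqrt 5 * ‖L c‖) ^ 2 := by
      rw [mul_pow, Real.sq_sqrt (by norm_num), h1]
      have h2 : ∑ i : Fin 5, ‖U i (L (c2 i))‖ ^ 2 ≤ ∑ _i : Fin 5, ‖L c‖ ^ 2 := by
        refine Finset.sum_le_sum fun i _ => ?_
        rw [hiso]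
        exact hle2 i
      simpa using h2
    exact (sq_le_sq₀ (norm_nonneg _) (by positivity)).1 h3
  rw [hsum]
  calc _ ≤ _ := norm_add_le _ _
    _ ≤ Real.sqrt 5 * ‖L c‖ + Real.sqrt 5 * ‖L c‖ := add_le_add hA hB
    _ = _ := by ring

theorem gap (hu : Orthonormal ℂ u) (p : Fin 5 → ι → ι) (hp : ∀ i, Function.Injective (p i))
    (D E : Fin 5 → Set ι) (hD : ∀ i j, i ≠ j → Disjoint (D i) (D j))
    (hE : ∀ i j, i ≠ j → Disjoint (E i) (E j)) (hDE : ∀ i x, x ∉ E i → p i x ∈ D i)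
    (U : Fin 5 → H →L[ℂ] H) (hU : ∀ i x, U i (u x) = u (p i x)) (η : H)
    (hη : η ∈ (Submodule.span ℂ (Set.range u)).topologicalClosure) :
    ‖∑ i, U i η‖ ≤ 2 * Real.sqrt 5 * ‖η‖ := by
  have hcl : IsClosed {η : H | ‖∑ i, U i η‖ ≤ 2 * Real.sqrt 5 * ‖η‖} := by
    refine isClosed_le ?_ ?_
    · fun_prop
    · fun_prop
  have hsub : ((Submodule.span ℂ (Set.range u) : Submodule ℂ H) : Set H) ⊆
      {η : H | ‖∑ i, U i η‖ ≤ 2 * Real.sqrt 5 * ‖η‖} := by
    intro η hη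
    rw [SetLike.mem_coe, Finsupp.mem_span_range_iff_exists_finsupp] at hη
    obtain ⟨c, rfl⟩ := hη
    exact gap_fin hu p hp D E hD hE hDE U hU c
  exact closure_minimal hsub hcl hη

/-- Convergence of the powers of the average to the projection onto the invariant vector. -/
theorem powers [CompleteSpace H] (hu : Orthonormal ℂ u) (p : Fin 5 → ι → ι)
    (hp : ∀ i, Function.Injective (p i))
    (D E : Fin 5 → Set ι) (hD : ∀ i j, i ≠ j → Disjoint (D i) (D j))
    (hE : ∀ i j, i ≠ j → Disjoint (E i) (E j)) (hDE : ∀ i x, x ∉ E i → p i x ∈ D i)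
    (U : Fin 5 → H →L[ℂ] H) (hU : ∀ i x, U i (u x) = u (p i x)) (e : H) (he : ‖e‖ = 1)
    (hUe : ∀ i, U i e = e) (heu : ∀ x, ⟪u x, e⟫_ℂ = 0)
    (hoff : ∀ ζ : H, ⟪e, ζ⟫_ℂ = 0 → (∀ x, ⟪u x, ζ⟫_ℂ = 0) → ∀ i, U i ζ = 0) (m : ℕ) (hm : m ≠ 0) :
    ‖((1 / 5 : ℂ) • ∑ i, U i) ^ m - (innerSL ℂ e).smulRight e‖ ≤ (2 / Real.sqrt 5) ^ m := by
  set T : H →L[ℂ] H := (1 / 5 : ℂ) • ∑ i, U i with hT
  have hTapp : ∀ ξ, T ξ = (1 / 5 : ℂ) • ∑ i, U i ξ := by
    intro ξ
    rw [hT, _root_.smul_apply, _root_.sum_apply]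
  set V := (Submodule.span ℂ (Set.range u)).topologicalClosure with hV
  have hsq : Real.sqrt 5 * Real.sqrt 5 = 5 := Real.mul_self_sqrt (by norm_num)
  have hs0 : 0 < Real.sqrt 5 := Real.sqrt_pos.2 (by norm_num)
  have hTV : ∀ η ∈ V, T η ∈ V := by
    intro η hη
    have hcl : IsClosed {η : H | T η ∈ V} :=
      (Submodule.isClosed_topologicalClosure _).preimage T.continuous
    have hsub : ((Submodule.span ℂ (Set.range u) : Submodule ℂ H) : Set H) ⊆
        {η : H | T η ∈ V} := by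
      have h1 : Submodule.span ℂ (Set.range u) ≤ V.comap (T : H →ₗ[ℂ] H) := by
        rw [Submodule.span_le]
        rintro _ ⟨x, rfl⟩
        show T (u x) ∈ V
        rw [hTapp]
        refine V.smul_mem _ (V.sum_mem fun i _ => ?_)
        rw [hU]
        exact Submodule.le_topologicalClosure _ (Submodule.subset_span ⟨_, rfl⟩)
      exact fun η hη => h1 hη
    exact closure_minimal hsub hcl hη
  have hTn : ∀ η ∈ V, ‖T η‖ ≤ 2 / Real.sqrt 5 * ‖η‖ := by
    intro η hη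
    have h1 := gap hu p hp D E hD hE hDE U hU η hη
    rw [hTapp, norm_smul]
    have h2 : ‖(1 / 5 : ℂ)‖ = 1 / 5 := by norm_num
    rw [h2]
    calc 1 / 5 * ‖∑ i, U i η‖ ≤ 1 / 5 * (2 * Real.sqrt 5 * ‖η‖) := by gcongr
      _ = 2 / Real.sqrt 5 * ‖η‖ := by
        have h5 : 2 / Real.sqrt 5 = 2 * Real.sqrt 5 / 5 := by
          rw [div_eq_div_iff hs0.ne' (by norm_num)]
          nlinarith [hsq]
        rw [h5]
        ring
  have hpow : ∀ (k : ℕ) (η : H), η ∈ V → (T ^ k) η ∈ V ∧ ‖(T ^ k) η‖ ≤ (2 / Real.sqrt 5) ^ k * ‖η‖ := by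
    intro k
    induction k with
    | zero =>
      intro η hη
      simp only [pow_zero, one_mul]
      exact ⟨hη, le_rfl⟩
    | succ k ih =>
      intro η hη
      obtain ⟨h1, h2⟩ := ih η hη
      have e1 : (T ^ (k + 1)) η = T ((T ^ k) η) := by
        rw [pow_succ']
        rfl
      rw [e1]
      refine ⟨hTV _ h1, (hTn _ h1).trans ?_⟩
      calc 2 / Real.sqrt 5 * ‖(T ^ k) η‖ ≤ 2 / Real.sqrt 5 * ((2 / Real.sqrt 5) ^ k * ‖η‖) := by
            gcongr
        _ = _ := by ring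
  have hTe : T e = e := by
    rw [hTapp]
    simp only [hUe, Finset.sum_const, Finset.card_univ, Fintype.card_fin]
    rw [← Nat.cast_smul_eq_nsmul ℂ, smul_smul]
    norm_num
  have hTe' : ∀ k : ℕ, (T ^ k) e = e := by
    intro k
    induction k with
    | zero => simp
    | succ k ih =>
      rw [pow_succ']
      show T ((T ^ k) e) = e
      rw [ih, hTe]
  refine ContinuousLinearMap.opNorm_le_bound _ (by positivity) fun ξ => ?_
  have hVc : CompleteSpace V := (Submodule.isClosed_topologicalClosure _).completeSpace_coe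
  set η : H := V.starProjection ξ with hηd
  have hηV : η ∈ V := Submodule.starProjection_apply_mem V ξ
  set ζ : H := ξ - η - ⟪e, ξ⟫_ℂ • e with hζ
  have hVe : ∀ v ∈ V, ⟪v, e⟫_ℂ = 0 := by
    intro v hv
    have hcl : IsClosed {η : H | ⟪η, e⟫_ℂ = 0} :=
      isClosed_eq (by fun_prop) continuous_const
    have hsub : ((Submodule.span ℂ (Set.range u) : Submodule ℂ H) : Set H) ⊆
        {η : H | ⟪η, e⟫_ℂ = 0} := by
      intro w hw
      show ⟪w, e⟫_ℂ = 0
      have h1 : Submodule.span ℂ (Set.range u) ≤ (ℂ ∙ e)ᗮ := by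
        rw [Submodule.span_le]
        rintro _ ⟨x, rfl⟩
        rw [SetLike.mem_coe, Submodule.mem_orthogonal_singleton_iff_inner_left]
        exact heu x
      exact (Submodule.mem_orthogonal_singleton_iff_inner_left).1 (h1 hw)
    exact closure_minimal hsub hcl hv
  have hperp : ∀ v ∈ V, ⟪v, ξ - η⟫_ℂ = 0 := by
    intro v hv
    exact (Submodule.mem_orthogonal _ _).1 (Submodule.sub_starProjection_mem_orthogonal ξ) v hv
  have hee : ⟪e, e⟫_ℂ = 1 := by
    rw [inner_self_eq_norm_sq_to_K, he]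
    norm_num
  have hζe : ⟪e, ζ⟫_ℂ = 0 := by
    have h1 : ⟪e, η⟫_ℂ = 0 := by
      rw [← inner_conj_symm, hVe η hηV, map_zero]
    rw [hζ, inner_sub_right, inner_sub_right, inner_smul_right, hee, h1]
    ring
  have hζu : ∀ x, ⟪u x, ζ⟫_ℂ = 0 := by
    intro x
    have hx : u x ∈ V := Submodule.le_topologicalClosure _ (Submodule.subset_span ⟨x, rfl⟩)
    rw [hζ, inner_sub_right, hperp _ hx, inner_smul_right, heu x]
    ring
  have hTζ : T ζ = 0 := by
    rw [hTapp]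
    simp only [hoff ζ hζe hζu, Finset.sum_const_zero, smul_zero]
  have hTζ' : (T ^ m) ζ = 0 := by
    obtain ⟨k, rfl⟩ := Nat.exists_eq_succ_of_ne_zero hm
    rw [Nat.succ_eq_add_one, pow_succ]
    show (T ^ k) (T ζ) = 0
    rw [hTζ, map_zero]
  have hdec : ξ = ζ + η + ⟪e, ξ⟫_ℂ • e := by
    rw [hζ]
    abel
  have hfin : (T ^ m - (innerSL ℂ e).smulRight e) ξ = (T ^ m) η := by
    have h1 : (T ^ m) ξ = (T ^ m) η + ⟪e, ξ⟫_ℂ • e := by
      conv_lhs => rw [hdec]
      rw [map_add, map_add, hTζ', map_smul, hTe', zero_add]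
    rw [_root_.sub_apply, h1]
    simp
  rw [hfin]
  refine (hpow m η hηV).2.trans ?_
  have h1 : ‖η‖ ≤ ‖ξ‖ := Submodule.norm_starProjection_apply_le V ξ
  gcongr

end gap

end Pool.Agent.R229.MS
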