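import Pool.Agent.R229.MS.Stm

/-! The abstract spatial implementation lemma. -/

set_option autoImplicit false

noncomputable section

namespace Pool.Agent.R229.MS

open Filter Topology
open scoped InnerProductSpace

universe u

/-- Two total families with the same Gram matrix are unitarily equivalent. -/
theorem gram {ι H K : Type u} [NormedAddCommGroup H] [InnerProductSpace ℂ H] [CompleteSpace H]
    [NormedAddCommGroup K] [InnerProductSpace ℂ K] [CompleteSpace K] (x : ι → H) (y : ι → K)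
    (hg : ∀ i j, ⟪x i, x j⟫_ℂ = ⟪y i, y j⟫_ℂ)
    (hx : ∀ ξ : H, (∀ i, ⟪x i, ξ⟫_ℂ = 0) → ξ = 0)
    (hy : ∀ ξ : K, (∀ i, ⟪y i, ξ⟫_ℂ = 0) → ξ = 0) :
    ∃ u : H ≃ₗᵢ[ℂ] K, ∀ i, u (x i) = y i := by
  let T : (ι →₀ ℂ) →ₗ[ℂ] H := Finsupp.linearCombination ℂ x
  let S : (ι →₀ ℂ) →ₗ[ℂ] K := Finsupp.linearCombination ℂ y
  have hin : ∀ c : ι →₀ ℂ, ⟪T c, T c⟫_ℂ = ⟪S c, S c⟫_ℂ := by
    intro c
    simp only [T, S, Finsupp.linearCombination_apply, Finsupp.sum, sum_inner, inner_sum,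
      inner_smul_left, inner_smul_right, hg]
  have hnorm : ∀ c, ‖T c‖ = ‖S c‖ := by
    intro c
    have h1 := hin c
    rw [inner_self_eq_norm_sq_to_K, inner_self_eq_norm_sq_to_K] at h1
    have h2 : ‖T c‖ ^ 2 = ‖S c‖ ^ 2 := by exact_mod_cast h1
    exact (sq_eq_sq₀ (norm_nonneg _) (norm_nonneg _)).1 h2
  have hTd : DenseRange T := by
    have h1 : (LinearMap.range T).topologicalClosure = ⊤ := by
      rw [Submodule.topologicalClosure_eq_top_iff, Submodule.eq_bot_iff]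
      intro ξ hξ
      apply hx
      intro i
      refine (Submodule.mem_orthogonal _ ξ).1 hξ _ ⟨Finsupp.single i 1, ?_⟩
      simp [T]
    intro z
    have : z ∈ (LinearMap.range T).topologicalClosure := by rw [h1]; trivial
    exact this
  have hSd : DenseRange S := by
    have h1 : (LinearMap.range S).topologicalClosure = ⊤ := by
      rw [Submodule.topologicalClosure_eq_top_iff, Submodule.eq_bot_iff]
      intro ξ hξ
      apply hy
      intro i
      refine (Submodule.mem_orthogonal _ ξ).1 hξ _ ⟨Finsupp.single i 1, ?_⟩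
      simp [S]
    intro z
    have : z ∈ (LinearMap.range S).topologicalClosure := by rw [h1]; trivial
    exact this
  let U : H →L[ℂ] K := S.extendOfNorm T
  let V : K →L[ℂ] H := T.extendOfNorm S
  have hU : ∀ c, U (T c) = S c := fun c =>
    LinearMap.extendOfNorm_eq hTd ⟨1, fun c => by rw [one_mul, hnorm]⟩ c
  have hV : ∀ c, V (S c) = T c := fun c =>
    LinearMap.extendOfNorm_eq hSd ⟨1, fun c => by rw [one_mul, hnorm]⟩ c
  have hUn : ∀ z, ‖U z‖ ≤ ‖z‖ := fun z => by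
    have := LinearMap.norm_extendOfNorm_apply_le (f := S) (e := T) hTd 1
      (fun c => by rw [one_mul, hnorm]) z
    rwa [one_mul] at this
  have hVn : ∀ z, ‖V z‖ ≤ ‖z‖ := fun z => by
    have := LinearMap.norm_extendOfNorm_apply_le (f := T) (e := S) hSd 1
      (fun c => by rw [one_mul, hnorm]) z
    rwa [one_mul] at this
  have hVU : ∀ z, V (U z) = z := by
    have : (V.comp U : H → H) = id := by
      refine DenseRange.equalizer hTd (V.comp U).continuous continuous_id ?_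
      funext c
      show V (U (T c)) = T c
      rw [hU, hV]
    exact fun z => congrFun this z
  have hUV : ∀ z, U (V z) = z := by
    have : (U.comp V : K → K) = id := by
      refine DenseRange.equalizer hSd (U.comp V).continuous continuous_id ?_
      funext c
      show U (V (S c)) = S c
      rw [hV, hU]
    exact fun z => congrFun this z
  let e : H ≃ₗ[ℂ] K := LinearEquiv.ofLinear U.toLinearMap V.toLinearMap
    (by ext z; exact hUV z) (by ext z; exact hVU z)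
  refine ⟨⟨e, fun z => ?_⟩, fun i => ?_⟩
  · apply le_antisymm (hUn z)
    have := hVn (U z)
    rw [hVU] at this
    exact this
  · show U (x i) = y i
    have h1 : T (Finsupp.single i 1) = x i := by simp [T]
    have h2 : S (Finsupp.single i 1) = y i := by simp [S]
    rw [← h1, hU, h2]

section

variable {H K : Type u} [NormedAddCommGroup H] [InnerProductSpace ℂ H]
  [CompleteSpace H] [NormedAddCommGroup K] [InnerProductSpace ℂ K] [CompleteSpace K]

lemma rk_apply (x y z : H) : rk x y z = ⟪y, z⟫_ℂ • x := rfl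

lemma rk_adjoint (x y : H) : ContinuousLinearMap.adjoint (rk x y) = rk y x := by
  symm
  rw [ContinuousLinearMap.eq_adjoint_iff]
  intro f g
  rw [rk_apply, rk_apply, inner_smul_left, inner_smul_right, inner_conj_symm, mul_comm]

lemma rk_star (x y : H) : star (rk x y) = rk y x := by
  rw [ContinuousLinearMap.star_eq_adjoint, rk_adjoint]

lemma rk_idem {v : H} (hv : ‖v‖ = 1) : rk v v * rk v v = rk v v := by
  ext z
  show rk v v (rk v v z) = rk v v z
  rw [rk_apply, rk_apply, inner_smul_right, inner_self_eq_norm_sq_to_K, hv]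
  simp

lemma rk_sandwich (v w : H) (a : H →L[ℂ] H) :
    rk v v * a * rk w w = ⟪v, a w⟫_ℂ • rk v w := by
  ext z
  show rk v v (a (rk w w z)) = ⟪v, a w⟫_ℂ • rk v w z
  rw [rk_apply, rk_apply, rk_apply, map_smul, inner_smul_right, smul_smul, mul_comm]

lemma star_apply_inner (a : H →L[ℂ] H) (x y : H) : ⟪(star a) x, y⟫_ℂ = ⟪x, a y⟫_ℂ := by
  rw [ContinuousLinearMap.star_eq_adjoint, ContinuousLinearMap.adjoint_inner_left]

lemma rk_ne {v : H} (hv : ‖v‖ = 1) : rk v v ≠ 0 := by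
  intro h
  have : rk v v v = 0 := by rw [h]; rfl
  rw [rk_apply, inner_self_eq_norm_sq_to_K, hv] at this
  simp only [RCLike.ofReal_one, one_pow, one_smul] at this
  rw [this, norm_zero] at hv
  exact zero_ne_one hv

/-- The image of a rank one projection is a rank one projection. -/
lemma rank_one_image (A : StarSubalgebra ℂ (H →L[ℂ] H)) (B : StarSubalgebra ℂ (K →L[ℂ] K))
    (hB : ∀ ξ : K, ξ ≠ 0 → ∃ v : K, ‖v‖ = 1 ∧ rk v v ∈ B ∧ ⟪v, ξ⟫_ℂ ≠ 0) (Φ : A ≃⋆ₐ[ℂ] B)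
    (v : H) (hv : ‖v‖ = 1) (hvA : rk v v ∈ A) :
    ∃ w : K, ‖w‖ = 1 ∧ ((Φ ⟨rk v v, hvA⟩ : B) : K →L[ℂ] K) = rk w w := by
  set e : A := ⟨rk v v, hvA⟩ with he
  set f : B := Φ e with hf
  have hee : e * e = e := Subtype.ext (rk_idem hv)
  have hse : star e = e := Subtype.ext (rk_star v v)
  have hff : f * f = f := by rw [hf, ← map_mul, hee]
  have hsf : star f = f := by rw [hf, ← map_star, hse]
  have hsfK : star (f : K →L[ℂ] K) = (f : K →L[ℂ] K) := congrArg Subtype.val hsf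
  have hffK : (f : K →L[ℂ] K) * (f : K →L[ℂ] K) = f := congrArg Subtype.val hff
  have hf0 : (f : K →L[ℂ] K) ≠ 0 := by
    intro h0
    have h1 : f = 0 := Subtype.ext h0
    have h2 : e = 0 := by
      have : Φ e = Φ 0 := by rw [← hf, h1, map_zero]
      exact Φ.injective this
    exact rk_ne hv (congrArg Subtype.val h2)
  obtain ⟨x, hx⟩ : ∃ x, (f : K →L[ℂ] K) x ≠ 0 := by
    by_contra hcon
    push Not at hcon
    exact hf0 (by ext x; exact hcon x)
  obtain ⟨w0, hw0, hw0B, hw0x⟩ := hB _ hx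
  -- the corner is one dimensional
  have hcorner : ∀ b : B, ∃ c : ℂ, f * b * f = c • f := by
    intro b
    obtain ⟨a, ha⟩ : ∃ a : A, Φ a = b := ⟨Φ.symm b, Φ.apply_symm_apply b⟩
    refine ⟨⟪v, (a : H →L[ℂ] H) v⟫_ℂ, ?_⟩
    have h1 : e * a * e = ⟪v, (a : H →L[ℂ] H) v⟫_ℂ • e := Subtype.ext (rk_sandwich v v _)
    rw [← ha, hf, ← map_mul, ← map_mul, h1, map_smul]
  obtain ⟨c, hc⟩ := hcorner ⟨rk w0 w0, hw0B⟩
  have hcK : (f : K →L[ℂ] K) * rk w0 w0 * (f : K →L[ℂ] K) = c • (f : K →L[ℂ] K) :=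
    congrArg Subtype.val hc
  set z := (f : K →L[ℂ] K) w0 with hz
  have hsym : ∀ p q : K, ⟪(f : K →L[ℂ] K) p, q⟫_ℂ = ⟪p, (f : K →L[ℂ] K) q⟫_ℂ := by
    intro p q
    have := star_apply_inner (f : K →L[ℂ] K) p q
    rwa [hsfK] at this
  have hrk : c • (f : K →L[ℂ] K) = rk z z := by
    rw [← hcK]
    ext p
    show (f : K →L[ℂ] K) (rk w0 w0 ((f : K →L[ℂ] K) p)) = rk z z p
    rw [rk_apply, rk_apply, map_smul, hz, hsym]
  have hz0 : z ≠ 0 := by
    intro h0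
    apply hw0x
    rw [← hsym, ← hz, h0, inner_zero_left]
  have hfz : (f : K →L[ℂ] K) z = z := by
    have : ((f : K →L[ℂ] K) * (f : K →L[ℂ] K)) w0 = (f : K →L[ℂ] K) w0 := by rw [hffK]
    exact this
  have hcz : c • z = ((‖z‖ : ℂ) ^ 2) • z := by
    have h1 : (c • (f : K →L[ℂ] K)) z = rk z z z := by rw [hrk]
    rw [rk_apply, inner_self_eq_norm_sq_to_K] at h1
    rw [_root_.smul_apply, hfz] at h1
    exact h1
  have hc' : c = (‖z‖ : ℂ) ^ 2 := by
    have : (c - (‖z‖ : ℂ) ^ 2) • z = 0 := by rw [sub_smul, hcz, sub_self]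
    rcases smul_eq_zero.1 this with h | h
    · exact sub_eq_zero.1 h
    · exact absurd h hz0
  have hnz : (‖z‖ : ℂ) ≠ 0 := by
    simpa using hz0
  refine ⟨((‖z‖ : ℂ)⁻¹) • z, ?_, ?_⟩
  · rw [norm_smul, norm_inv]
    simp only [Complex.norm_real, norm_norm]
    exact inv_mul_cancel₀ (norm_ne_zero_iff.2 hz0)
  · have h1 : (f : K →L[ℂ] K) = c⁻¹ • rk z z := by
      rw [← hrk, smul_smul, inv_mul_cancel₀ (by rw [hc']; exact pow_ne_zero 2 hnz), one_smul]
    rw [h1]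
    ext p
    rw [_root_.smul_apply, rk_apply, rk_apply, inner_smul_left, smul_smul, smul_smul, hc']
    congr 1
    rw [map_inv₀, Complex.conj_ofReal]
    field_simp

end

theorem spatial : StmtSpatial.{u} := by
  intro H K _ _ _ _ _ _ A B hA hB Φ
  classical
  let I : Type u := {v : H // ‖v‖ = 1 ∧ rk v v ∈ A}
  let R : I → I → Prop := fun v w => ∃ a : A, ⟪w.1, (a : H →L[ℂ] H) v.1⟫_ℂ ≠ 0
  have hR : Equivalence R := by
    refine ⟨fun v => ⟨1, ?_⟩, ?_, ?_⟩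
    · show ⟪v.1, v.1⟫_ℂ ≠ 0
      rw [inner_self_eq_norm_sq_to_K, v.2.1]
      simp
    · rintro v w ⟨a, ha⟩
      refine ⟨star a, ?_⟩
      intro h0
      apply ha
      have h1 : ⟪v.1, (star (a : H →L[ℂ] H)) w.1⟫_ℂ = 0 := h0
      rw [← inner_conj_symm, star_apply_inner] at h1
      exact (map_eq_zero _).1 h1
    · rintro v w z ⟨a, ha⟩ ⟨b, hb⟩
      let e : A := ⟨rk w.1 w.1, w.2.2⟩
      refine ⟨b * e * a, ?_⟩
      show ⟪z.1, (b : H →L[ℂ] H) (rk w.1 w.1 ((a : H →L[ℂ] H) v.1))⟫_ℂ ≠ 0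
      rw [rk_apply, map_smul, inner_smul_right]
      exact mul_ne_zero ha hb
  let st : Setoid I := ⟨R, hR⟩
  let Q : Type u := Quotient st
  let vq : Q → I := fun q => q.out
  have hvq : ∀ v : I, R (vq ⟦v⟧) v := fun v => Quotient.mk_out v
  choose w hw1 hw using fun q : Q =>
    rank_one_image A B hB Φ (vq q).1 (vq q).2.1 (vq q).2.2
  -- values of the inner products
  have hin : ∀ (q : Q) (c : A), ⟪(vq q).1, (c : H →L[ℂ] H) (vq q).1⟫_ℂ =
      ⟪w q, ((Φ c : B) : K →L[ℂ] K) (w q)⟫_ℂ := by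
    intro q c
    let e : A := ⟨rk (vq q).1 (vq q).1, (vq q).2.2⟩
    have h1 : e * c * e = ⟪(vq q).1, (c : H →L[ℂ] H) (vq q).1⟫_ℂ • e :=
      Subtype.ext (rk_sandwich _ _ _)
    have h2 : Φ e * Φ c * Φ e = ⟪(vq q).1, (c : H →L[ℂ] H) (vq q).1⟫_ℂ • Φ e := by
      rw [← map_mul, ← map_mul, h1, map_smul]
    have h3 : rk (w q) (w q) * ((Φ c : B) : K →L[ℂ] K) * rk (w q) (w q) =
        ⟪(vq q).1, (c : H →L[ℂ] H) (vq q).1⟫_ℂ • rk (w q) (w q) := by
      rw [← hw q]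
      exact congrArg Subtype.val h2
    rw [rk_sandwich] at h3
    have h4 : (⟪w q, ((Φ c : B) : K →L[ℂ] K) (w q)⟫_ℂ • rk (w q) (w q)) (w q) =
        (⟪(vq q).1, (c : H →L[ℂ] H) (vq q).1⟫_ℂ • rk (w q) (w q)) (w q) := by rw [h3]
    rw [_root_.smul_apply, _root_.smul_apply, rk_apply, inner_self_eq_norm_sq_to_K, hw1] at h4
    simp only [RCLike.ofReal_one, one_pow, one_smul] at h4
    have hw0 : w q ≠ 0 := by
      intro h0
      have := hw1 q
      rw [h0, norm_zero] at this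
      exact zero_ne_one this
    have h5 : (⟪w q, ((Φ c : B) : K →L[ℂ] K) (w q)⟫_ℂ -
        ⟪(vq q).1, (c : H →L[ℂ] H) (vq q).1⟫_ℂ) • w q = 0 := by rw [sub_smul, h4, sub_self]
    rcases smul_eq_zero.1 h5 with h | h
    · exact (sub_eq_zero.1 h).symm
    · exact absurd h hw0
  have hin0 : ∀ (p q : Q) (c : A), p ≠ q → ⟪(vq p).1, (c : H →L[ℂ] H) (vq q).1⟫_ℂ = 0 := by
    intro p q c hpq
    by_contra hne
    apply hpq
    have h1 : R (vq q) (vq p) := ⟨c, hne⟩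
    have h2 : (⟦vq q⟧ : Q) = ⟦vq p⟧ := Quotient.sound h1
    have h3 : (⟦vq q⟧ : Q) = q := Quotient.out_eq q
    have h4 : (⟦vq p⟧ : Q) = p := Quotient.out_eq p
    rw [h3, h4] at h2
    exact h2.symm
  -- transport of matrix coefficients between rank one projections
  have htr : ∀ (v v' : H) (hv : ‖v‖ = 1) (hv' : ‖v'‖ = 1) (hvA : rk v v ∈ A)
      (hvA' : rk v' v' ∈ A) (z z' : K) (hz : ‖z‖ = 1) (hz' : ‖z'‖ = 1)
      (hΦ : ((Φ ⟨rk v v, hvA⟩ : B) : K →L[ℂ] K) = rk z z)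
      (hΦ' : ((Φ ⟨rk v' v', hvA'⟩ : B) : K →L[ℂ] K) = rk z' z') (c : A),
      ⟪v, (c : H →L[ℂ] H) v'⟫_ℂ = 0 ↔ ⟪z, ((Φ c : B) : K →L[ℂ] K) z'⟫_ℂ = 0 := by
    intro v v' hv hv' hvA hvA' z z' hz hz' hΦ hΦ' c
    let e : A := ⟨rk v v, hvA⟩
    let e' : A := ⟨rk v' v', hvA'⟩
    have k1 : ((e * c * e' : A) : H →L[ℂ] H) = ⟪v, (c : H →L[ℂ] H) v'⟫_ℂ • rk v v' :=
      rk_sandwich _ _ _
    have k2 : ((Φ e * Φ c * Φ e' : B) : K →L[ℂ] K) =
        ⟪z, ((Φ c : B) : K →L[ℂ] K) z'⟫_ℂ • rk z z' := by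
      have h5 : ((Φ e * Φ c * Φ e' : B) : K →L[ℂ] K) =
        rk z z * ((Φ c : B) : K →L[ℂ] K) * rk z' z' := by rw [← hΦ, ← hΦ']; rfl
      rw [h5, rk_sandwich]
    have hne : ∀ {L : Type u} [NormedAddCommGroup L] [InnerProductSpace ℂ L] (p q : L),
        ‖p‖ = 1 → ‖q‖ = 1 → ∀ t : ℂ, t • rk p q = 0 → t = 0 := by
      intro L _ _ p q hp hq t ht
      have h6 : (t • rk p q) q = 0 := by rw [ht]; rfl
      have h7 : (t • rk p q) q = t • (⟪q, q⟫_ℂ • p) := rfl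
      rw [h7, inner_self_eq_norm_sq_to_K, hq] at h6
      simp only [RCLike.ofReal_one, one_pow, one_smul] at h6
      rcases smul_eq_zero.1 h6 with h | h
      · exact h
      · rw [h, norm_zero] at hp
        exact absurd hp zero_ne_one
    constructor
    · intro h0
      have h1 : e * c * e' = 0 := Subtype.ext (by rw [k1, h0, zero_smul]; rfl)
      have h2 : Φ e * Φ c * Φ e' = 0 := by rw [← map_mul, ← map_mul, h1, map_zero]
      apply hne z z' hz hz'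
      rw [← k2, h2]; rfl
    · intro h0
      have h2 : Φ e * Φ c * Φ e' = 0 := Subtype.ext (by rw [k2, h0, zero_smul]; rfl)
      have h1 : e * c * e' = 0 := by
        have h3 : Φ (e * c * e') = Φ 0 := by rw [map_mul, map_mul, h2, map_zero]
        exact Φ.injective h3
      apply hne v v' hv hv'
      rw [← k1, h1]; rfl
  -- the two families
  let x : A × Q → H := fun i => (i.1 : H →L[ℂ] H) (vq i.2).1
  let y : A × Q → K := fun i => ((Φ i.1 : B) : K →L[ℂ] K) (w i.2)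
  have hg : ∀ i j, ⟪x i, x j⟫_ℂ = ⟪y i, y j⟫_ℂ := by
    rintro ⟨a, p⟩ ⟨b, q⟩
    have l1 : ⟪x (a, p), x (b, q)⟫_ℂ = ⟪(vq p).1, ((star a * b : A) : H →L[ℂ] H) (vq q).1⟫_ℂ := by
      show ⟪(a : H →L[ℂ] H) (vq p).1, (b : H →L[ℂ] H) (vq q).1⟫_ℂ =
        ⟪(vq p).1, (star (a : H →L[ℂ] H)) ((b : H →L[ℂ] H) (vq q).1)⟫_ℂ
      rw [← inner_conj_symm (vq p).1, star_apply_inner, inner_conj_symm]
    have l2 : ⟪y (a, p), y (b, q)⟫_ℂ = ⟪w p, ((Φ (star a * b) : B) : K →L[ℂ] K) (w q)⟫_ℂ := by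
      have h0 : ((Φ (star a * b) : B) : K →L[ℂ] K) =
          star ((Φ a : B) : K →L[ℂ] K) * ((Φ b : B) : K →L[ℂ] K) := by
        rw [map_mul, map_star]; rfl
      rw [h0]
      show ⟪((Φ a : B) : K →L[ℂ] K) (w p), ((Φ b : B) : K →L[ℂ] K) (w q)⟫_ℂ =
        ⟪w p, (star ((Φ a : B) : K →L[ℂ] K)) (((Φ b : B) : K →L[ℂ] K) (w q))⟫_ℂ
      rw [← inner_conj_symm (w p), star_apply_inner, inner_conj_symm]
    rw [l1, l2]
    rcases eq_or_ne p q with rfl | hpq
    · exact hin p _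
    · rw [hin0 p q _ hpq]
      symm
      exact (htr _ _ (vq p).2.1 (vq q).2.1 (vq p).2.2 (vq q).2.2 _ _ (hw1 p) (hw1 q) (hw p)
        (hw q) _).1 (hin0 p q _ hpq)
  have hx : ∀ ξ : H, (∀ i, ⟪x i, ξ⟫_ℂ = 0) → ξ = 0 := by
    intro ξ hξ
    by_contra hne
    obtain ⟨v, hv, hvA, hvξ⟩ := hA ξ hne
    let v' : I := ⟨v, hv, hvA⟩
    obtain ⟨a, ha⟩ := hvq v'
    let e : A := ⟨rk v v, hvA⟩
    have h1 := hξ (e * a, ⟦v'⟧)
    have h2 : x (e * a, ⟦v'⟧) = ⟪v, (a : H →L[ℂ] H) (vq ⟦v'⟧).1⟫_ℂ • v := rfl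
    rw [h2, inner_smul_left] at h1
    rcases mul_eq_zero.1 h1 with h | h
    · exact ha ((map_eq_zero _).1 h)
    · exact hvξ h
  have hy : ∀ ξ : K, (∀ i, ⟪y i, ξ⟫_ℂ = 0) → ξ = 0 := by
    intro ξ hξ
    by_contra hne
    obtain ⟨z, hz, hzB, hzξ⟩ := hB ξ hne
    obtain ⟨v, hv, hvΦ⟩ := rank_one_image B A hA Φ.symm z hz hzB
    have hvA : rk v v ∈ A := by rw [← hvΦ]; exact Subtype.property _
    have hΦv : ((Φ ⟨rk v v, hvA⟩ : B) : K →L[ℂ] K) = rk z z := by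
      have : (⟨rk v v, hvA⟩ : A) = Φ.symm ⟨rk z z, hzB⟩ := Subtype.ext hvΦ.symm
      rw [this, StarAlgEquiv.apply_symm_apply]
    let v' : I := ⟨v, hv, hvA⟩
    obtain ⟨a, ha⟩ := hvq v'
    have ha' : ⟪z, ((Φ a : B) : K →L[ℂ] K) (w ⟦v'⟧)⟫_ℂ ≠ 0 := by
      intro h0
      exact ha ((htr _ _ hv (vq ⟦v'⟧).2.1 hvA (vq ⟦v'⟧).2.2 _ _ hz (hw1 ⟦v'⟧) hΦv
        (hw ⟦v'⟧) a).2 h0)
    let e : A := ⟨rk v v, hvA⟩
    have h1 := hξ (e * a, ⟦v'⟧)
    have h2 : y (e * a, ⟦v'⟧) = ⟪z, ((Φ a : B) : K →L[ℂ] K) (w ⟦v'⟧)⟫_ℂ • z := by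
      have h3 : ((Φ (e * a) : B) : K →L[ℂ] K) = rk z z * ((Φ a : B) : K →L[ℂ] K) := by
        rw [map_mul, ← hΦv]; rfl
      show ((Φ (e * a) : B) : K →L[ℂ] K) (w ⟦v'⟧) = _
      rw [h3]
      rfl
    rw [h2, inner_smul_left] at h1
    rcases mul_eq_zero.1 h1 with h | h
    · exact ha' ((map_eq_zero _).1 h)
    · exact hzξ h
  obtain ⟨u, hu⟩ := gram x y hg hx hy
  refine ⟨u, fun a ξ => ?_⟩
  -- intertwining on the total family
  have hint : ∀ i, ((Φ a : B) : K →L[ℂ] K) (y i) = u ((a : H →L[ℂ] H) (u.symm (y i))) := by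
    rintro ⟨b, q⟩
    rw [← hu (b, q), LinearIsometryEquiv.symm_apply_apply]
    have h1 := hu (a * b, q)
    have h2 : x (a * b, q) = (a : H →L[ℂ] H) (x (b, q)) := rfl
    rw [h2] at h1
    rw [h1, hu]
    show ((Φ a : B) : K →L[ℂ] K) (((Φ b : B) : K →L[ℂ] K) (w q)) =
      ((Φ (a * b) : B) : K →L[ℂ] K) (w q)
    rw [map_mul]
    rfl
  let L : K →L[ℂ] K := (u.toContinuousLinearEquiv : H →L[ℂ] K).comp
    (((a : H →L[ℂ] H)).comp (u.symm.toContinuousLinearEquiv : K →L[ℂ] H))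
  have hL : ((Φ a : B) : K →L[ℂ] K) = L := by
    have hcl : ∀ ζ : K, ζ ∈ (Submodule.span ℂ (Set.range y)).topologicalClosure := by
      have h1 : (Submodule.span ℂ (Set.range y)).topologicalClosure = ⊤ := by
        rw [Submodule.topologicalClosure_eq_top_iff, Submodule.eq_bot_iff]
        intro ζ hζ
        apply hy
        intro i
        exact (Submodule.mem_orthogonal _ ζ).1 hζ _ (Submodule.subset_span ⟨i, rfl⟩)
      intro ζ
      rw [h1]; trivial
    ext ζ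
    have hclosed : IsClosed {ζ | ((Φ a : B) : K →L[ℂ] K) ζ = L ζ} :=
      isClosed_eq (ContinuousLinearMap.continuous _) L.continuous
    have hsub : (Submodule.span ℂ (Set.range y) : Set K) ⊆
        {ζ | ((Φ a : B) : K →L[ℂ] K) ζ = L ζ} := by
      intro ζ hζ
      induction hζ using Submodule.span_induction with
      | mem z hz => obtain ⟨i, rfl⟩ := hz; exact hint i
      | zero => simp
      | add p q _ _ hp hq =>
        show _ = _
        rw [map_add, map_add]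
        exact congrArg₂ _ hp hq
      | smul c p _ hp =>
        show _ = _
        rw [map_smul, map_smul]
        exact congrArg _ hp
    exact hclosed.closure_subset_iff.2 hsub (hcl ζ)
  rw [hL]
  rfl

end Pool.Agent.R229.MS
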