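import Pool.Agent.R229.MS.Stm
import Pool.Agent.R229.MS.Spatial
import Pool.Agent.R229.MS.Gap

/-! The projection onto the constants of a Bernoulli piece. -/

set_option autoImplicit false

noncomputable section

namespace Pool.Agent.R229.MS

open MeasureTheory Filter Topology Set
open scoped InnerProductSpace ENNReal NNReal

universe u

section

variable {X : Type u} [MeasurableSpace X] {μ : Measure X} {Ξ : Type u}

omit [MeasurableSpace X] in
lemma sg_sq (A : Set X) (x : X) : sg A x * sg A x = 1 := by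
  unfold sg
  split_ifs <;> norm_num

lemma measurable_sg {A : Set X} (hA : MeasurableSet A) : Measurable (sg A) := by
  classical
  have : sg A = fun x => if x ∈ A then (-1 : ℝ) else 1 := by
    funext x
    unfold sg
    congr
  rw [this]
  exact Measurable.ite hA measurable_const measurable_const

lemma measurable_walsh {A : Ξ → Set X} (hA : ∀ i, MeasurableSet (A i)) (S : Finset Ξ) :
    Measurable (walsh A S) := by
  unfold walsh
  exact Finset.measurable_fun_prod _ fun i _ => measurable_sg (hA i)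

lemma walsh_mul_self (A : Ξ → Set X) (S : Finset Ξ) (x : X) :
    walsh A S x * walsh A S x = 1 := by
  unfold walsh
  rw [← Finset.prod_mul_distrib]
  exact Finset.prod_eq_one fun i _ => sg_sq _ _

open Classical in
lemma walsh_mul (A : Ξ → Set X) (S T : Finset Ξ) (x : X) :
    walsh A S x * walsh A T x = walsh A (symmDiff S T) x := by
  have h1 : walsh A S x = walsh A (S \ T) x * walsh A (S ∩ T) x := by
    unfold walsh
    rw [← Finset.prod_union (Finset.disjoint_sdiff_inter S T), Finset.sdiff_union_inter]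
  have h2 : walsh A T x = walsh A (T \ S) x * walsh A (S ∩ T) x := by
    unfold walsh
    rw [Finset.inter_comm S T, ← Finset.prod_union (Finset.disjoint_sdiff_inter T S),
      Finset.sdiff_union_inter]
  have h3 : walsh A (symmDiff S T) x = walsh A (S \ T) x * walsh A (T \ S) x := by
    unfold walsh
    rw [← Finset.prod_union]
    · rfl
    · exact disjoint_sdiff_sdiff
  rw [h1, h2, h3]
  calc _ = (walsh A (S \ T) x * walsh A (T \ S) x) * (walsh A (S ∩ T) x * walsh A (S ∩ T) x) := by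
        ring
    _ = _ := by rw [walsh_mul_self, mul_one]

lemma norm_walsh (A : Ξ → Set X) (S : Finset Ξ) (x : X) : ‖walsh A S x‖ = 1 := by
  have h := walsh_mul_self A S x
  have h2 : ‖walsh A S x‖ * ‖walsh A S x‖ = 1 := by rw [← norm_mul, h, norm_one]
  nlinarith [norm_nonneg (walsh A S x)]

lemma memLp_walsh {C : Set X} {A : Ξ → Set X} (h : Bern μ C A) (S : Finset Ξ) :
    MemLp (C.indicator (fun x => (walsh A S x : ℂ))) 2 μ := by
  have hm : Measurable fun x => (walsh A S x : ℂ) :=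
    Complex.measurable_ofReal.comp (measurable_walsh h.meas S)
  rw [memLp_indicator_iff_restrict h.mC]
  have : IsFiniteMeasure (μ.restrict C) := ⟨by simpa using lt_top_iff_ne_top.mpr h.fin⟩
  refine MemLp.of_bound hm.aestronglyMeasurable 1 (Eventually.of_forall fun x => ?_)
  rw [Complex.norm_real, norm_walsh]

/-- The Walsh vectors. -/
def wv {C : Set X} {A : Ξ → Set X} (h : Bern μ C A) (S : Finset Ξ) : L2 μ :=
  (memLp_walsh h S).toLp _

lemma wv_coe {C : Set X} {A : Ξ → Set X} (h : Bern μ C A) (S : Finset Ξ) :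
    (wv h S : X → ℂ) =ᵐ[μ] C.indicator (fun x => (walsh A S x : ℂ)) :=
  (memLp_walsh h S).coeFn_toLp

lemma wv_inner {C : Set X} {A : Ξ → Set X} (h : Bern μ C A) (S : Finset Ξ) (ζ : L2 μ) :
    ⟪wv h S, ζ⟫_ℂ = ∫ x in C, (walsh A S x : ℂ) * (ζ : X → ℂ) x ∂μ := by
  rw [L2.inner_def, ← integral_indicator h.mC]
  apply integral_congr_ae
  filter_upwards [wv_coe h S] with x hx
  rw [hx]
  by_cases hxC : x ∈ C
  · rw [indicator_of_mem hxC, indicator_of_mem hxC, RCLike.inner_apply, Complex.conj_ofReal,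
      mul_comm]
  · rw [indicator_of_notMem hxC, indicator_of_notMem hxC, inner_zero_left]

lemma wv_inner_wv {C : Set X} {A : Ξ → Set X} (h : Bern μ C A) (S T : Finset Ξ) :
    ⟪wv h S, wv h T⟫_ℂ = ((∫ x in C, walsh A S x * walsh A T x ∂μ : ℝ) : ℂ) := by
  rw [wv_inner, ← integral_complex_ofReal]
  apply integral_congr_ae
  rw [Filter.EventuallyEq, ae_restrict_iff' h.mC]
  filter_upwards [wv_coe h T] with x hx hxC
  rw [hx, indicator_of_mem hxC]
  push_cast
  rfl

lemma wv_orth {C : Set X} {A : Ξ → Set X} (h : Bern μ C A) {S T : Finset Ξ} (hST : S ≠ T) :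
    ⟪wv h S, wv h T⟫_ℂ = 0 := by
  classical
  rw [wv_inner_wv]
  simp only [walsh_mul]
  rw [h.orth]
  · rfl
  · rw [Finset.nonempty_iff_ne_empty]
    intro h0
    exact hST (symmDiff_eq_bot.1 h0)

lemma wv_self {C : Set X} {A : Ξ → Set X} (h : Bern μ C A) (S : Finset Ξ) :
    ⟪wv h S, wv h S⟫_ℂ = ((μ.real C : ℝ) : ℂ) := by
  rw [wv_inner_wv]
  simp only [walsh_mul_self]
  simp

theorem piece (hTot : StmtTotal.{u}) (hPerm : StmtPerm.{u}) (hFree : StmtFree.{u}) :
    StmtPiece.{u} := by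
  intro X _ μ C hC hf Ξ A h
  obtain ⟨π, D, E, hD, hE, hDE⟩ := hFree Ξ h.inf
  have hU := fun i => hPerm X μ C Ξ A h (π i)
  choose U hU1 hU2 hU3 hU4 using hU
  set e0 : L2 μ := indicatorConstLp 2 hC hf (1 : ℂ) with he0
  have hμC : 0 < μ.real C := ENNReal.toReal_pos h.pos h.fin
  set r : ℝ := Real.sqrt (μ.real C) with hr
  have hr0 : 0 < r := Real.sqrt_pos.2 hμC
  have hrr : r * r = μ.real C := Real.mul_self_sqrt hμC.le
  -- normalised vectors
  let ι := {S : Finset Ξ // S.Nonempty}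
  let v : Finset Ξ → L2 μ := fun S => ((r⁻¹ : ℝ) : ℂ) • wv h S
  have hvinner : ∀ S T, S ≠ T → ⟪v S, v T⟫_ℂ = 0 := by
    intro S T hST
    show ⟪((r⁻¹ : ℝ) : ℂ) • wv h S, ((r⁻¹ : ℝ) : ℂ) • wv h T⟫_ℂ = 0
    rw [inner_smul_left, inner_smul_right, wv_orth h hST, mul_zero, mul_zero]
  have hvnorm : ∀ S, ‖v S‖ = 1 := by
    intro S
    have h1 : ⟪v S, v S⟫_ℂ = 1 := by
      show ⟪((r⁻¹ : ℝ) : ℂ) • wv h S, ((r⁻¹ : ℝ) : ℂ) • wv h S⟫_ℂ = 1
      rw [inner_smul_left, inner_smul_right, wv_self h, Complex.conj_ofReal, ← hrr]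
      rw [← Complex.ofReal_mul, ← Complex.ofReal_mul]
      have : r⁻¹ * (r⁻¹ * (r * r)) = 1 := by
        field_simp
      rw [this]
      rfl
    have h2 : ‖v S‖ ^ 2 = 1 := by
      have h3 := congrArg Complex.re h1
      rw [inner_self_eq_norm_sq_to_K] at h3
      have h4 : (((‖v S‖ : ℝ) : ℂ) ^ 2).re = ‖v S‖ ^ 2 := by
        rw [← Complex.ofReal_pow, Complex.ofReal_re]
      rw [← h4]
      exact h3
    exact (pow_eq_one_iff_of_nonneg (norm_nonneg _) (by norm_num)).1 h2
  let u : ι → L2 μ := fun S => v S.1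
  have hu : Orthonormal ℂ u := by
    refine ⟨fun S => hvnorm _, fun S T hST => hvinner _ _ fun h0 => hST (Subtype.ext h0)⟩
  -- permutations
  have hne : ∀ i (S : Finset Ξ), S.Nonempty → (S.map (π i).toEmbedding).Nonempty := by
    intro i S hS
    simpa using hS
  let p : Fin 5 → ι → ι := fun i S => ⟨S.1.map (π i).toEmbedding, hne i _ S.2⟩
  have hp : ∀ i, Function.Injective (p i) := by
    intro i S T hST
    have h1 : S.1.map (π i).toEmbedding = T.1.map (π i).toEmbedding := congrArg Subtype.val hST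
    exact Subtype.ext (Finset.map_injective _ h1)
  have hUv : ∀ i S, U i (v S) = v (S.map (π i).toEmbedding) := by
    intro i S
    show U i (((r⁻¹ : ℝ) : ℂ) • wv h S) = ((r⁻¹ : ℝ) : ℂ) • wv h _
    rw [map_smul, hU2 i S (wv h S) (wv h (S.map (π i).toEmbedding)) (wv_coe h _) (wv_coe h _)]
  have hw0 : wv h ∅ = e0 := by
    apply Lp.ext
    filter_upwards [wv_coe h ∅, indicatorConstLp_coeFn (p := 2) (hs := hC) (hμs := hf)
      (c := (1 : ℂ))] with x h1 h2
    rw [h1, he0, h2]
    have : (fun x => (walsh A ∅ x : ℂ)) = fun _ => (1 : ℂ) := by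
      funext y
      simp [walsh]
    rw [this]
  set e : L2 μ := v ∅ with he
  have hoff : ∀ ζ : L2 μ, ⟪e, ζ⟫_ℂ = 0 → (∀ x : ι, ⟪u x, ζ⟫_ℂ = 0) → ∀ i, U i ζ = 0 := by
    intro ζ h1 h2 i
    apply hU4
    have hw : ∀ S, ⟪wv h S, ζ⟫_ℂ = 0 := by
      intro S
      have h3 : ⟪v S, ζ⟫_ℂ = 0 := by
        rcases S.eq_empty_or_nonempty with rfl | hS
        · exact h1
        · exact h2 ⟨S, hS⟩
      have h4 : wv h S = ((r : ℝ) : ℂ) • v S := by
        show wv h S = ((r : ℝ) : ℂ) • ((r⁻¹ : ℝ) : ℂ) • wv h S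
        rw [smul_smul, ← Complex.ofReal_mul, mul_inv_cancel₀ hr0.ne', Complex.ofReal_one, one_smul]
      rw [h4, inner_smul_left, h3, mul_zero]
    have hmem : MemLp (C.indicator (ζ : X → ℂ)) 2 μ := (Lp.memLp ζ).indicator hC
    set ζC : L2 μ := hmem.toLp _ with hζC
    have hcoe : (ζC : X → ℂ) =ᵐ[μ] C.indicator (ζ : X → ℂ) := hmem.coeFn_toLp
    have h5 : ζC = 0 := by
      apply hTot X μ C Ξ A h
      · filter_upwards [hcoe] with x hx hxC
        rw [hx, indicator_of_notMem hxC]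
      · intro S
        rw [← hw S, wv_inner]
        apply integral_congr_ae
        rw [Filter.EventuallyEq, ae_restrict_iff' hC]
        filter_upwards [hcoe] with x hx hxC
        rw [hx, indicator_of_mem hxC]
    have h6 : ∀ᵐ x ∂μ, (ζC : X → ℂ) x = 0 := by
      rw [h5]
      exact Lp.coeFn_zero ℂ 2 μ
    filter_upwards [hcoe, h6] with x h7 h8 hx
    have hxC : x ∈ C := by
      by_contra hn
      exact hx hn
    rw [h7, indicator_of_mem hxC] at h8
    exact h8
  have hpow := fun (m : ℕ) (hm : m ≠ 0) => powers hu p hp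
    (fun i => {x | x.1 ∈ D i}) (fun i => {x | x.1 ∈ E i})
    (fun i j hij => by
      rw [Set.disjoint_left]
      intro x hx hx'
      exact Set.disjoint_left.1 (hD i j hij) hx hx')
    (fun i j hij => by
      rw [Set.disjoint_left]
      intro x hx hx'
      exact Set.disjoint_left.1 (hE i j hij) hx hx')
    (fun i x hx => hDE i x.1 x.2 hx) U (fun i x => hUv i x.1) e (hvnorm ∅)
    (fun i => by rw [he, hUv, Finset.map_empty])
    (fun x => hvinner _ _ (Finset.nonempty_iff_ne_empty.1 x.2)) hoff m hm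
  -- the limit belongs to the closure
  have hT : ((1 / 5 : ℂ) • ∑ i, U i) ∈ Bse μ :=
    (Bse μ).smul_mem ((Bse μ).sum_mem fun i _ => hU1 i) _
  have hlim : Tendsto (fun m : ℕ => ((1 / 5 : ℂ) • ∑ i, U i) ^ m) atTop
      (𝓝 ((innerSL ℂ e).smulRight e)) := by
    rw [tendsto_iff_norm_sub_tendsto_zero]
    have hs : (2 : ℝ) / Real.sqrt 5 < 1 := by
      rw [div_lt_one (Real.sqrt_pos.2 (by norm_num))]
      exact Real.lt_sqrt_of_sq_lt (by norm_num)
    refine squeeze_zero' (Eventually.of_forall fun m => norm_nonneg _) ?_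
      (tendsto_pow_atTop_nhds_zero_of_lt_one (by positivity) hs)
    filter_upwards [eventually_ne_atTop 0] with m hm
    exact hpow m hm
  have hmem : rk e e ∈ Cu μ :=
    mem_closure_of_tendsto hlim (Eventually.of_forall fun m => (Bse μ).pow_mem hT m)
  have hfin : rk e0 e0 = ((r * r : ℝ) : ℂ) • rk e e := by
    have h4 : e0 = ((r : ℝ) : ℂ) • e := by
      rw [← hw0]
      show wv h ∅ = ((r : ℝ) : ℂ) • ((r⁻¹ : ℝ) : ℂ) • wv h ∅
      rw [smul_smul, ← Complex.ofReal_mul, mul_inv_cancel₀ hr0.ne', Complex.ofReal_one, one_smul]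
    ext1 z
    rw [_root_.smul_apply, rk_apply, rk_apply, h4, inner_smul_left, Complex.conj_ofReal,
      smul_smul ((r : ℂ) * ⟪e, z⟫_ℂ) (r : ℂ) e, smul_smul ((r * r : ℝ) : ℂ) ⟪e, z⟫_ℂ e]
    congr 1
    rw [Complex.ofReal_mul]
    ring
  rw [hfin]
  exact (Cu μ).smul_mem hmem _

end

end Pool.Agent.R229.MS
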