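import Mathlib

/-! Definitions for the statement: operators with bounded support expansion on `L²(X, μ)`. -/

set_option autoImplicit false

noncomputable section

namespace Pool.Agent.R229.MS.Short

open MeasureTheory
open scoped ENNReal NNReal

/-- The complex Hilbert space `L²(X, μ)`. -/
def HS {X : Type*} [MeasurableSpace X] (μ : Measure X) : Type _ := Lp ℂ 2 μ

instance instHSNormed {X : Type*} [MeasurableSpace X] (μ : Measure X) :
    NormedAddCommGroup (HS μ) := Lp.instNormedAddCommGroup

instance instHSInner {X : Type*} [MeasurableSpace X] (μ : Measure X) :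
    InnerProductSpace ℂ (HS μ) := L2.innerProductSpace

/-- The underlying function of an element of `L²(X, μ)`. -/
def fn {X : Type*} [MeasurableSpace X] {μ : Measure X} (ξ : HS μ) : X → ℂ := ξ.1.cast

/-- The bounded operators on `L²(X, μ)`. -/
abbrev Op {X : Type*} [MeasurableSpace X] (μ : Measure X) : Type _ := HS μ →L[ℂ] HS μ

/-- `ξ` vanishes almost everywhere outside `A`. -/
def Supp {X : Type*} [MeasurableSpace X] {μ : Measure X} (ξ : HS μ) (A : Set X) : Prop :=
  ∀ᵐ x ∂μ, x ∉ A → fn ξ x = 0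

/-- For every measurable `A` there is a measurable `B` with `μ B ≤ c μ A` such that `a` maps the
functions supported in `A` to functions supported in `B`, i.e. `1_B a 1_A = a 1_A`. -/
def Expands {X : Type*} [MeasurableSpace X] {μ : Measure X} (c : ℝ≥0) (a : Op μ) : Prop :=
  ∀ A : Set X, MeasurableSet A → ∃ B : Set X, MeasurableSet B ∧ μ B ≤ c * μ A ∧
    ∀ ξ : HS μ, Supp ξ A → Supp (a ξ) B

/-- `b` is the Hilbert space adjoint `a*` of `a`. -/
def IsAdj {H : Type*} [NormedAddCommGroup H] [InnerProductSpace ℂ H] (a b : H →L[ℂ] H) : Prop :=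
  ∀ ξ η : H, inner ℂ (b ξ) η = inner ℂ ξ (a η)

/-- `C*_u(X, V_μ)`: the operator norm closure of the set of all operators `a` such that, for some
real `c ≥ 0`, both `a` and `a*` have support expansion at most `c`. -/
def CuAlg {X : Type*} [MeasurableSpace X] (μ : Measure X) : Set (Op μ) :=
  closure {a | ∃ c : ℝ≥0, Expands c a ∧ ∀ b : Op μ, IsAdj a b → Expands c b}

/-- `Φ` maps the algebra `A` of operators on `H` bijectively onto the algebra `B` of operators on
`K` and preserves sums, scalar multiples, products and adjoints. -/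
structure IsStarIso {H K : Type*} [NormedAddCommGroup H] [InnerProductSpace ℂ H]
    [NormedAddCommGroup K] [InnerProductSpace ℂ K] (A : Set (H →L[ℂ] H)) (B : Set (K →L[ℂ] K))
    (Φ : (H →L[ℂ] H) → (K →L[ℂ] K)) : Prop where
  bij : Set.BijOn Φ A B
  add : ∀ a ∈ A, ∀ b ∈ A, Φ (a + b) = Φ a + Φ b
  smul : ∀ (z : ℂ), ∀ a ∈ A, Φ (z • a) = z • Φ a
  mul : ∀ a ∈ A, ∀ b ∈ A, Φ (a.comp b) = (Φ a).comp (Φ b)
  adj : ∀ a ∈ A, ∀ b ∈ A, IsAdj a b → IsAdj (Φ a) (Φ b)

end Pool.Agent.R229.MS.Short
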