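import Pool.Agent.R229.MS.Defs

/-! Exact statements of the pieces of the project MS. -/

set_option autoImplicit false

namespace Pool.Agent.R229.MS

open MeasureTheory Filter Topology Set
open scoped InnerProductSpace ENNReal NNReal Cardinal

universe u

/-- A family of measurable sets `F` is not generating on any nonnull set: on every nonnull `D`
there is a measurable `D' ⊆ D` which is not a.e. equal to `E ∩ D` for any `E` in the σ-algebra
generated by `F`. -/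
def NowhereGen {X : Type u} [m0 : MeasurableSpace X] (ν : Measure X) (F : Set (Set X)) : Prop :=
  ∀ D : Set X, MeasurableSet D → ν D ≠ 0 → ∃ D' : Set X, MeasurableSet D' ∧ D' ⊆ D ∧
    ∀ E : Set X, MeasurableSet[MeasurableSpace.generateFrom F] E → ¬ D' =ᵐ[ν] (E ∩ D : Set X)

/-- Piece MS-G: prescribed conditional probabilities. -/
def StmtG : Prop := ∀ (X : Type u) [m0 : MeasurableSpace X] (ν : Measure X) [IsFiniteMeasure ν]
  (F : Set (Set X)), (∀ A ∈ F, MeasurableSet A) → NowhereGen ν F →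
  ∀ g : X → ℝ, Measurable[MeasurableSpace.generateFrom F] g → (∀ x, 0 ≤ g x) → (∀ x, g x ≤ 1) →
  ∃ b : Set X, MeasurableSet b ∧
    ν[b.indicator (fun _ => (1 : ℝ)) | MeasurableSpace.generateFrom F] =ᵐ[ν] g

/-- The measure of the set where `a` is not determined by the σ-algebra generated by `F`. -/
noncomputable def und {X : Type u} [m0 : MeasurableSpace X] (ν : Measure X) (F : Set (Set X))
    (a : Set X) : ℝ≥0∞ :=
  ν {x | 0 < (ν[a.indicator (fun _ => (1 : ℝ)) | MeasurableSpace.generateFrom F]) x ∧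
    (ν[a.indicator (fun _ => (1 : ℝ)) | MeasurableSpace.generateFrom F]) x < 1}

/-- Piece MS-S: the one step lemma. -/
def StmtStep : Prop := ∀ (X : Type u) [m0 : MeasurableSpace X] (ν : Measure X)
  [IsFiniteMeasure ν] (F : Set (Set X)) (a : Set X), (∀ A ∈ F, MeasurableSet A) →
  MeasurableSet a → NowhereGen ν (insert a F) →
  ∃ A : Set X, MeasurableSet A ∧
    (ν[A.indicator (fun _ => (1 : ℝ)) | MeasurableSpace.generateFrom F] =ᵐ[ν] fun _ => 1 / 2) ∧
    und ν (insert A F) a ≤ und ν F a / 2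

/-- Piece MS-M1: more sets determine more. -/
def StmtUndMono : Prop := ∀ (X : Type u) [m0 : MeasurableSpace X] (ν : Measure X)
  [IsFiniteMeasure ν] (F G : Set (Set X)) (a : Set X), F ⊆ G → (∀ A ∈ G, MeasurableSet A) →
  MeasurableSet a → und ν G a ≤ und ν F a

/-- Piece MS-M2: the transfinite construction. `κ` is an infinite cardinal, fewer than `κ` sets
generate nowhere, and `F0` (with at most `κ` elements) generates everything. -/
def StmtRec : Prop := ∀ (X : Type u) [m0 : MeasurableSpace X] (ν : Measure X)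
  [IsFiniteMeasure ν] (κ : Cardinal.{u}), ℵ₀ ≤ κ →
  (∀ F : Set (Set X), (∀ A ∈ F, MeasurableSet A) → #F < κ → NowhereGen ν F) →
  ∀ F0 : Set (Set X), (∀ A ∈ F0, MeasurableSet A) → #F0 ≤ κ →
  (∀ D : Set X, MeasurableSet D →
    ∃ E : Set X, MeasurableSet[MeasurableSpace.generateFrom F0] E ∧ D =ᵐ[ν] E) →
  ∃ (Ξ : Type u) (A : Ξ → Set X), Infinite Ξ ∧ (∀ i, MeasurableSet (A i)) ∧
    (∀ S : Finset Ξ, S.Nonempty → ∫ x, walsh A S x ∂ν = 0) ∧
    (∀ D : Set X, MeasurableSet D →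
      ∃ E : Set X, MeasurableSet[MeasurableSpace.generateFrom (Set.range A)] E ∧ D =ᵐ[ν] E)

/-- Piece MS-M3: every nonnull set of finite measure contains an atom or a Bernoulli piece. -/
def StmtMaharam : Prop := ∀ (X : Type u) [MeasurableSpace X] (μ : Measure X) (B : Set X),
  MeasurableSet B → μ B ≠ 0 → μ B ≠ ∞ →
  ∃ C ⊆ B, IsAtomSet μ C ∨ ∃ (Ξ : Type u) (A : Ξ → Set X), Bern μ C A

/-- The operator of the permutation `π` of the index set, given on the Walsh functions. -/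
def StmtPerm : Prop := ∀ (X : Type u) [MeasurableSpace X] (μ : Measure X) (C : Set X)
  (Ξ : Type u) (A : Ξ → Set X), Bern μ C A → ∀ π : Ξ ≃ Ξ,
  ∃ U : L2 μ →L[ℂ] L2 μ, U ∈ Bse μ ∧
    (∀ (S : Finset Ξ) (w w' : L2 μ), (w : X → ℂ) =ᵐ[μ] C.indicator (fun x => (walsh A S x : ℂ)) →
      (w' : X → ℂ) =ᵐ[μ] C.indicator (fun x => (walsh A (S.map π.toEmbedding) x : ℂ)) →
      U w = w') ∧
    (∀ ξ : L2 μ, Supp ξ C → ‖U ξ‖ = ‖ξ‖ ∧ Supp (U ξ) C) ∧
    (∀ ξ : L2 μ, Supp ξ Cᶜ → U ξ = 0)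

/-- Walsh functions are total in `L²(C)`. -/
def StmtTotal : Prop := ∀ (X : Type u) [MeasurableSpace X] (μ : Measure X) (C : Set X)
  (Ξ : Type u) (A : Ξ → Set X), Bern μ C A → ∀ ξ : L2 μ, Supp ξ C →
  (∀ S : Finset Ξ, ∫ x in C, (walsh A S x : ℂ) * (ξ : X → ℂ) x ∂μ = 0) → ξ = 0

/-- Piece MS-F: permutations with a spectral gap: five permutations `π i` of an infinite set such
that `π i` maps the complement of `E i` into `D i`, with disjoint `D i` and disjoint `E i`, on the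
nonempty finite subsets. -/
def StmtFree : Prop := ∀ (Ξ : Type u), Infinite Ξ →
  ∃ (π : Fin 5 → (Ξ ≃ Ξ)) (D E : Fin 5 → Set (Finset Ξ)),
    (∀ i j, i ≠ j → Disjoint (D i) (D j)) ∧ (∀ i j, i ≠ j → Disjoint (E i) (E j)) ∧
    (∀ i (S : Finset Ξ), S.Nonempty → S ∉ E i → S.map (π i).toEmbedding ∈ D i)

/-- Piece MS-P: the projection onto the constants of a Bernoulli piece. -/
def StmtPiece : Prop := ∀ (X : Type u) [MeasurableSpace X] (μ : Measure X) (C : Set X)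
  (hC : MeasurableSet C) (hf : μ C ≠ ∞) (Ξ : Type u) (A : Ξ → Set X), Bern μ C A →
  rk (indicatorConstLp 2 hC hf (1 : ℂ)) (indicatorConstLp 2 hC hf (1 : ℂ)) ∈ Cu μ

/-- Piece MS-A: the abstract lemma. -/
def StmtSpatial : Prop := ∀ (H K : Type u) [NormedAddCommGroup H] [InnerProductSpace ℂ H]
  [CompleteSpace H] [NormedAddCommGroup K] [InnerProductSpace ℂ K] [CompleteSpace K]
  (A : StarSubalgebra ℂ (H →L[ℂ] H)) (B : StarSubalgebra ℂ (K →L[ℂ] K)),
  (∀ ξ : H, ξ ≠ 0 → ∃ v : H, ‖v‖ = 1 ∧ rk v v ∈ A ∧ ⟪v, ξ⟫_ℂ ≠ 0) →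
  (∀ ξ : K, ξ ≠ 0 → ∃ v : K, ‖v‖ = 1 ∧ rk v v ∈ B ∧ ⟪v, ξ⟫_ℂ ≠ 0) →
  ∀ Φ : A ≃⋆ₐ[ℂ] B, ∃ u : H ≃ₗᵢ[ℂ] K, ∀ (a : A) (x : K),
    (Φ a : K →L[ℂ] K) x = u ((a : H →L[ℂ] H) (u.symm x))

end Pool.Agent.R229.MS
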